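import Pool.Agent.L5helper6.DZ.Chain

/-!
# The abscissas of the zeros of zeta and of the terms of the sequence
-/

set_option autoImplicit false

open Complex Filter Topology Set Metric

namespace Pool.Agent.L5helper6.DZ

variable {a u : ℝ} {U : Set ℂ} {w : ℂ → ℂ}

/-- no zeros of the term of index `k` to the right of `b + ε` at large heights -/
def FreeS (w : ℂ → ℂ) (k : ℕ) (b : ℝ) : Prop :=
  ∀ ε : ℝ, 0 < ε → ∃ T0 : ℝ, ∀ s : ℂ, b + ε ≤ s.re → T0 ≤ s.im → sq w riemannZeta k s ≠ 0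

lemma Free_one : Free 1 := fun ε hε => ⟨0, fun s h _ => riemannZeta_ne_zero_of_one_le_re (by linarith)⟩

theorem abscissa (hM : Mul a u U w) {b : ℝ} (hu : u < b) (hb0 : 1 / 2 ≤ b) (hb1 : b ≤ 1)
    (hG : ∀ b' : ℝ, b < b' → b' ≤ 1 → Free b' → ∃ κ : ℝ, 0 ≤ κ ∧ κ < a ∧ Gr κ b') (k : ℕ) :
    Free b ↔ FreeS w k b := by
  constructor
  · intro hf ε hε
    obtain ⟨T0, hT0⟩ := right2 hM hu (by linarith) hb1 hf k (ε := min ε (1 / 2))
      (lt_min hε (by norm_num)) (min_le_right _ _)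
    exact ⟨T0, fun s h1 h2 => (hT0 s (by have := min_le_left ε (1 / 2); linarith) h2).1⟩
  · intro hS
    set S : Set ℝ := {x : ℝ | b ≤ x ∧ x ≤ 1 ∧ Free x} with hSdef
    have h1S : (1 : ℝ) ∈ S := ⟨hb1, le_rfl, Free_one⟩
    have hbd : BddBelow S := ⟨b, fun x hx => hx.1⟩
    set b0 : ℝ := sInf S with hb0'
    have hb0b : b ≤ b0 := le_csInf ⟨1, h1S⟩ fun x hx => hx.1
    have hb01 : b0 ≤ 1 := csInf_le hbd h1S
    have hf0 : Free b0 := by
      intro ε hε
      obtain ⟨x, hx, hxb⟩ := exists_lt_of_csInf_lt ⟨1, h1S⟩ (by linarith : sInf S < b0 + ε / 2)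
      obtain ⟨T0, hT0⟩ := hx.2.2 (ε / 2) (half_pos hε)
      exact ⟨T0, fun s h1 h2 => hT0 s (by linarith) h2⟩
    rcases hb0b.eq_or_lt with h | h
    · rw [h]
      exact hf0
    exfalso
    obtain ⟨κ, hκ0, hκa, hgr⟩ := hG b0 h hb01 hf0
    set r : ℝ := (b0 - b) / 4 with hr
    have hr0 : 0 < r := by rw [hr]; linarith
    obtain ⟨δ, T0, hδ, H⟩ := chain hM (hu.trans h) (by linarith) hb01 hf0 hκ0 hκa hgr k hr0
    obtain ⟨T1, hT1⟩ := hS r hr0
    -- zeros of zeta near the line of the last zeros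
    set δ' : ℝ := min δ r with hδ'
    have hδ'0 : 0 < δ' := lt_min hδ hr0
    have hnf : ¬ Free (b0 - δ') := by
      intro hf
      have : b0 - δ' ∈ S := ⟨by have := min_le_right δ r; linarith, by linarith, hf⟩
      have := csInf_le hbd this
      linarith
    unfold Free at hnf
    push Not at hnf
    obtain ⟨ε, hε, hz⟩ := hnf
    obtain ⟨p, h1, h2, h3⟩ := hz (max T0 (T1 + r))
    obtain ⟨q, hq, hq0⟩ := H p (by have := min_le_left δ r; linarith) ((le_max_left _ _).trans h2) h3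
    obtain ⟨g1, g2, g3, g4, g5⟩ := mem_ball_re_im hq
    have m1 : δ' ≤ r := min_le_right _ _
    have m2 : T1 + r ≤ p.im := (le_max_right _ _).trans h2
    exact hT1 q (by linarith) (by linarith) hq0

end Pool.Agent.L5helper6.DZ
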