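import Pool.Agent.L5helper6.DZ.Fwd

/-!
# Zeros of zeta and zeros of the terms of the sequence
-/

set_option autoImplicit false

open Complex Filter Topology Set Metric

namespace Pool.Agent.L5helper6.DZ

variable {a u : ℝ} {U : Set ℂ} {w : ℂ → ℂ}

theorem chain (hM : Mul a u U w) {b κ : ℝ} (hu : u < b) (hb0 : 1 / 2 ≤ b) (hb1 : b ≤ 1) (hf : Free b)
    (hκ0 : 0 ≤ κ) (hκa : κ < a) (hgr : Gr κ b) (k : ℕ) : ∀ {r : ℝ}, 0 < r →
    ∃ δ T0 : ℝ, 0 < δ ∧ ∀ p : ℂ, b - δ ≤ p.re → T0 ≤ p.im →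
      riemannZeta p = 0 → ∃ q ∈ ball p r, sq w riemannZeta k q = 0 := by
  induction k with
  | zero =>
    intro r hr
    exact ⟨1, 0, one_pos, fun p _ _ h => ⟨p, mem_ball_self hr, h⟩⟩
  | succ k ih =>
    intro r hr
    obtain ⟨δ1, T1, hδ1, H1⟩ := fwd hM hu hb0 hb1 hf hκ0 hκa hgr k (half_pos hr)
    obtain ⟨δ2, T2, hδ2, H2⟩ := ih (r := min (r / 2) (min (δ1 / 2) 1))
      (lt_min (half_pos hr) (lt_min (half_pos hδ1) one_pos))
    refine ⟨min δ2 (δ1 / 2), max T2 (T1 + 1), lt_min hδ2 (half_pos hδ1), fun p h1 h2 h3 => ?_⟩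
    obtain ⟨q, hq, hq0⟩ := H2 p (by have := min_le_left δ2 (δ1 / 2); linarith)
      ((le_max_left _ _).trans h2) h3
    obtain ⟨g1, g2, g3, g4, g5⟩ := mem_ball_re_im hq
    have m1 : min (r / 2) (min (δ1 / 2) 1) ≤ r / 2 := min_le_left _ _
    have m2 : min (r / 2) (min (δ1 / 2) 1) ≤ δ1 / 2 := (min_le_right _ _).trans (min_le_left _ _)
    have m3 : min (r / 2) (min (δ1 / 2) 1) ≤ 1 := (min_le_right _ _).trans (min_le_right _ _)
    have m4 : min δ2 (δ1 / 2) ≤ δ1 / 2 := min_le_right _ _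
    have m5 : T1 + 1 ≤ p.im := (le_max_right _ _).trans h2
    obtain ⟨q', hq', hq'0⟩ := H1 q (by linarith) (by linarith) hq0
    refine ⟨q', ?_, hq'0⟩
    rw [mem_ball] at hq hq' ⊢
    have := dist_triangle q' q p
    linarith

/-- the bound with slope for every `b > 1/2`, from the trivial bound on the left -/
theorem Gr_one {b : ℝ} (hb0 : 1 / 2 < b) (hb1 : b ≤ 1) (hf : Free b) :
    ∃ κ : ℝ, 0 ≤ κ ∧ κ < 1 ∧ Gr κ b := by
  refine ⟨(5 / 8) / (b - (-1 / 8)), by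
    apply div_nonneg <;> linarith, ?_, ?_⟩
  · rw [div_lt_one (by linarith)]
    linarith
  · apply Gr_of (by norm_num) (by linarith) (by linarith) hb1 (by norm_num) _ hf
    intro η hη
    obtain ⟨A, hA1, h1, h2, h3, h4⟩ := Pool.Agent.TH809.MZ.zeta_left (x := 5 / 8) (by norm_num) (by norm_num)
    refine ⟨A, fun t ht => ?_⟩
    have h5 := h3 t
    have e : (1 / 2 - 5 / 8 : ℝ) = -1 / 8 := by norm_num
    rw [e] at h5
    refine h5.trans ?_
    apply mul_le_mul_of_nonneg_left _ (by linarith)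
    apply Real.rpow_le_rpow_of_exponent_le _ (by linarith)
    linarith [abs_nonneg t]

/-- the bound with slope less than one half for every `b > 5/6`, from the bound of Weyl, Hardy and
Littlewood -/
theorem Gr_half {b : ℝ} (hb0 : 5 / 6 < b) (hb1 : b ≤ 1) (hf : Free b) :
    ∃ κ : ℝ, 0 ≤ κ ∧ κ < 1 / 2 ∧ Gr κ b := by
  refine ⟨(1 / 6) / (b - 1 / 2), by
    apply div_nonneg <;> linarith, ?_, ?_⟩
  · rw [div_lt_iff₀ (by linarith)]
    linarith
  · apply Gr_of (by norm_num) (by linarith) (by linarith) hb1 (by norm_num) _ hf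
    intro η hη
    obtain ⟨C, hC⟩ := Pool.Agent.TH809.MZ.growth_weyl η hη
    exact ⟨C, fun t _ => hC t⟩

end Pool.Agent.L5helper6.DZ
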