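import Mathlib
import Pool.Agent.H296R2.LE.Basic

/-!
# Local analysis of the sequence `F, F' + w F, (F' + w F)' + w (F' + w F), …`
-/

set_option autoImplicit false

open Complex Filter Topology Set Metric
open Pool.Agent.H296R2.LE (ratio_upper ratio_lower exists_log ext_ball three_circles)

namespace Pool.Agent.L5helper6.DZ

/-- the sequence `F_0 = F`, `F_(j+1) = F_j' + w F_j` -/
noncomputable def sq (w F : ℂ → ℂ) : ℕ → ℂ → ℂ
  | 0 => F
  | (j + 1) => fun s => deriv (sq w F j) s + w s * sq w F j s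

lemma sq_diff {w F : ℂ → ℂ} {V : Set ℂ} (hV : IsOpen V) (hF : DifferentiableOn ℂ F V)
    (hw : DifferentiableOn ℂ w V) (j : ℕ) : DifferentiableOn ℂ (sq w F j) V := by
  induction j with
  | zero => exact hF
  | succ j ih => exact (ih.deriv hV).add (hw.mul ih)

/-- extension of a bound for the logarithmic derivative over a zero-free ball -/
theorem ext0 {r ρ R : ℝ} (hr : 0 < r) (hrρ : r < ρ) (hρR : ρ < R) {A ε : ℝ} (hA : 0 < A)
    (hε : 0 < ε) : ∃ ε' : ℝ, 0 < ε' ∧ ∀ (F : ℂ → ℂ) (c : ℂ) (L : ℝ), 0 < L →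
      DifferentiableOn ℂ F (ball c R) → (∀ z ∈ ball c R, F z ≠ 0) →
      (∀ z ∈ ball c R, ‖F z‖ ≤ Real.exp (A * L) * ‖F c‖) →
      (∀ z ∈ closedBall c r, ‖deriv F z / F z‖ ≤ ε' * L) →
      ∀ z ∈ closedBall c ρ, ‖deriv F z / F z‖ ≤ ε * L := by
  have hR0 : 0 < R := (hr.trans hrρ).trans hρR
  obtain ⟨ε', hε', H⟩ := ext_ball hr hrρ hρR (A := A + R) (by positivity) hε
  refine ⟨ε', hε', fun F c L hL hd hne hup hin => ?_⟩
  have hcb : c ∈ ball c R := mem_ball_self hR0
  have hFc : F c ≠ 0 := hne c hcb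
  set G : ℂ → ℂ := fun z => F z / F c * cexp (-(L * (z - c))) with hG
  have hGd : DifferentiableOn ℂ G (ball c R) := by
    apply (hd.div_const _).mul
    apply DifferentiableOn.cexp
    fun_prop
  have hGne : ∀ z ∈ ball c R, G z ≠ 0 := fun z hz =>
    mul_ne_zero (div_ne_zero (hne z hz) hFc) (exp_ne_zero _)
  have hquot : ∀ z ∈ ball c R, deriv G z / G z + L = deriv F z / F z := by
    intro z hz
    have h1 : HasDerivAt F (deriv F z) z :=
      ((hd z hz).differentiableAt (isOpen_ball.mem_nhds hz)).hasDerivAt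
    have h2 : HasDerivAt (fun z : ℂ => cexp (-(L * (z - c)))) (cexp (-(L * (z - c))) * (-(L * 1))) z :=
      ((((hasDerivAt_id z).sub_const c).const_mul (L : ℂ)).neg).cexp
    have h3 := (h1.div_const (F c)).mul h2
    have h4 : deriv G z = _ := h3.deriv
    rw [h4]
    have h5 := hne z hz
    have h6 := exp_ne_zero (-(L * (z - c)))
    simp only [hG]
    field_simp
    ring
  intro z hz
  have key := H G c L hL hGd hGne ?_ ?_ ?_ z hz
  · rwa [hquot z (closedBall_subset_ball hρR hz)] at key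
  · intro z hz
    simp only [hG]
    rw [norm_mul, norm_div, Complex.norm_exp]
    have h1 := hup z hz
    have h2 : 0 < ‖F c‖ := norm_pos_iff.2 hFc
    have h3 : ‖F z‖ / ‖F c‖ ≤ Real.exp (A * L) := by
      rw [div_le_iff₀ h2]
      exact h1
    have h4 : (-((L : ℂ) * (z - c))).re ≤ R * L := by
      have h5 : (-((L : ℂ) * (z - c))).re ≤ ‖-((L : ℂ) * (z - c))‖ := re_le_norm _
      rw [norm_neg, norm_mul, Complex.norm_real, Real.norm_of_nonneg hL.le] at h5
      rw [mem_ball, dist_eq_norm] at hz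
      nlinarith
    calc ‖F z‖ / ‖F c‖ * Real.exp (-((L : ℂ) * (z - c))).re
        ≤ Real.exp (A * L) * Real.exp (R * L) := by gcongr
      _ = Real.exp ((A + R) * L) := by rw [← Real.exp_add]; ring_nf
  · simp only [hG, sub_self, mul_zero, neg_zero, Complex.exp_zero, mul_one]
    rw [div_self hFc, norm_one]
  · intro z hz
    rw [hquot z (closedBall_subset_ball (hrρ.trans hρR) hz)]
    exact hin z hz

/-- upper bounds for the sequence -/
theorem up {w F : ℂ → ℂ} {c : ℂ} {R η B M : ℝ} (hη : 0 < η) (hB : 0 ≤ B)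
    (hF : DifferentiableOn ℂ F (ball c R)) (hw : DifferentiableOn ℂ w (ball c R))
    (hwB : ∀ z ∈ ball c R, ‖w z‖ ≤ B) (hFM : ∀ z ∈ ball c R, ‖F z‖ ≤ M) (j : ℕ) :
    ∀ z ∈ ball c (R - j * η), ‖sq w F j z‖ ≤ (B + 1 / η) ^ j * M := by
  induction j with
  | zero =>
    intro z hz
    simp only [Nat.cast_zero, zero_mul, sub_zero] at hz
    simpa [sq] using hFM z hz
  | succ j ih =>
    intro z hz
    have hsub : closedBall z η ⊆ ball c (R - j * η) := by
      intro y hy
      rw [mem_closedBall] at hy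
      rw [mem_ball] at hz ⊢
      push_cast at hz
      have := dist_triangle y z c
      linarith
    have hsub2 : ball c (R - j * η) ⊆ ball c R := by
      apply ball_subset_ball
      have : 0 ≤ (j : ℝ) * η := by positivity
      linarith
    have hd : DifferentiableOn ℂ (sq w F j) (ball c R) := sq_diff isOpen_ball hF hw j
    have hder : ‖deriv (sq w F j) z‖ ≤ (B + 1 / η) ^ j * M / η := by
      apply Complex.norm_deriv_le_of_forall_mem_sphere_norm_le hη
      · apply DifferentiableOn.diffContOnCl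
        rw [closure_ball z hη.ne']
        exact hd.mono (hsub.trans hsub2)
      · intro y hy
        exact ih y (hsub (sphere_subset_closedBall hy))
    have hz' : z ∈ ball c (R - j * η) := hsub (mem_closedBall_self hη.le)
    have h1 := ih z hz'
    have h2 := hwB z (hsub2 hz')
    calc ‖sq w F (j + 1) z‖ ≤ ‖deriv (sq w F j) z‖ + ‖w z‖ * ‖sq w F j z‖ := by
          rw [← norm_mul]
          exact norm_add_le _ _
      _ ≤ (B + 1 / η) ^ j * M / η + B * ((B + 1 / η) ^ j * M) := by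
          gcongr
      _ = (B + 1 / η) ^ (j + 1) * M := by
          rw [pow_succ]
          ring

lemma rec_id (S S' F F' w c p : ℂ) (hF : F ≠ 0) (hc : c ≠ 0) (hp : p ≠ 0) :
    (S' + w * S) / (F * (p * c)) - 1 = ((S' * (F * p) - S * (F' * p)) / (F * p) ^ 2) / c +
      S / (F * p) * ((F' / F + w - c) / c) + (S / (F * p) - 1) := by
  field_simp
  ring

lemma log_id (S S' F w c p : ℂ) (hS : S ≠ 0) (hF : F ≠ 0) (hc : c ≠ 0) (hp : p ≠ 0) :
    S' / S = c * (((S' + w * S) / (F * (p * c)) - 1) / (S / (F * p)) -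
      (S / (F * p) - 1) / (S / (F * p))) - (w - c) := by
  field_simp
  ring

/-- the main term of the sequence where the logarithmic derivative is small -/
theorem asym (k : ℕ) : ∀ {r' r : ℝ}, 0 < r' → r' < r → ∀ {a ε : ℝ}, 0 < a → 0 < ε →
    ∃ ε' L0 : ℝ, 0 < ε' ∧ 0 < L0 ∧ ∀ (F w : ℂ → ℂ) (c : ℂ) (L : ℝ), L0 ≤ L →
      DifferentiableOn ℂ F (ball c r) → DifferentiableOn ℂ w (ball c r) →
      (∀ z ∈ ball c r, F z ≠ 0) →
      (∀ z ∈ ball c r, ‖deriv F z / F z + w z - a * L‖ ≤ ε' * L) →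
      ∀ z ∈ ball c r', ‖sq w F k z / (F z * (a * L) ^ k) - 1‖ ≤ ε := by
  induction k with
  | zero =>
    intro r' r h0 h1 a ε ha hε
    refine ⟨1, 1, one_pos, one_pos, ?_⟩
    intro F w c L hL hF hw hne h z hz
    have hz' : z ∈ ball c r := ball_subset_ball h1.le hz
    simp only [sq, pow_zero, mul_one]
    rw [div_self (hne z hz'), sub_self, norm_zero]
    exact hε.le
  | succ k ih =>
    intro r' r h0 h1 a ε ha hε
    obtain ⟨r'', hr1, hr2⟩ := exists_between h1
    have hr0 : 0 < r'' := h0.trans hr1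
    set η : ℝ := (r'' - r') / 2 with hη
    have hη0 : 0 < η := by rw [hη]; linarith
    set ε1 : ℝ := min (ε / 4) 1 with hε1
    have hε10 : 0 < ε1 := lt_min (by linarith) one_pos
    have hε11 : ε1 ≤ 1 := min_le_right _ _
    have hε14 : ε1 ≤ ε / 4 := min_le_left _ _
    obtain ⟨ε2, L1, hε2, hL1, H⟩ := ih hr0 hr2 ha hε10
    refine ⟨min ε2 (a * ε / 8), max L1 (1 / (η * a)), lt_min hε2 (by positivity),
      lt_max_of_lt_left hL1, ?_⟩
    intro F w c L hL hF hw hne h z hz
    have hLL1 : L1 ≤ L := (le_max_left _ _).trans hL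
    have hL0 : 0 < L := hL1.trans_le hLL1
    have hLη : 1 / (η * a) ≤ L := (le_max_right _ _).trans hL
    have haL : (a * L : ℂ) ≠ 0 := by
      exact_mod_cast (mul_pos ha hL0).ne'
    have haLn : ‖(a * L : ℂ)‖ = a * L := by
      rw [norm_mul, Complex.norm_real, Complex.norm_real, Real.norm_of_nonneg ha.le,
        Real.norm_of_nonneg hL0.le]
    have haL0 : 0 < a * L := mul_pos ha hL0
    have hH := H F w c L hLL1 hF hw hne (fun z hz => (h z hz).trans
      (mul_le_mul_of_nonneg_right (min_le_left _ _) hL0.le))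
    set Q : ℂ → ℂ := fun z => sq w F k z / (F z * (a * L) ^ k) with hQ
    have hQd : DifferentiableOn ℂ Q (ball c r) := by
      apply (sq_diff isOpen_ball hF hw k).div (hF.mul_const _)
      intro z hz
      exact mul_ne_zero (hne z hz) (pow_ne_zero _ haL)
    have hzr : z ∈ ball c r := ball_subset_ball h1.le hz
    have hzr'' : z ∈ ball c r'' := ball_subset_ball hr1.le hz
    -- derivative of `Q`
    have hder : ‖deriv Q z‖ ≤ ε1 / η := by
      have e : deriv Q z = deriv (fun z => Q z - 1) z := by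
        rw [deriv_sub_const]
      rw [e]
      have hsub : closedBall z η ⊆ ball c r'' := by
        intro y hy
        rw [mem_closedBall] at hy
        rw [mem_ball] at hz ⊢
        have := dist_triangle y z c
        rw [hη] at hy
        linarith
      apply Complex.norm_deriv_le_of_forall_mem_sphere_norm_le hη0
      · apply DifferentiableOn.diffContOnCl
        rw [closure_ball z hη0.ne']
        exact (hQd.mono (hsub.trans (ball_subset_ball hr2.le))).sub_const _
      · intro y hy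
        exact hH y (hsub (sphere_subset_closedBall hy))
    -- the recursion
    have hFz := hne z hzr
    have hdF : HasDerivAt F (deriv F z) z :=
      ((hF z hzr).differentiableAt (isOpen_ball.mem_nhds hzr)).hasDerivAt
    have hdS : HasDerivAt (sq w F k) (deriv (sq w F k) z) z :=
      (((sq_diff isOpen_ball hF hw k) z hzr).differentiableAt (isOpen_ball.mem_nhds hzr)).hasDerivAt
    have hdQ : deriv Q z = (deriv (sq w F k) z * (F z * (a * L) ^ k) -
        sq w F k z * (deriv F z * (a * L) ^ k)) / (F z * (a * L) ^ k) ^ 2 :=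
      (hdS.div (hdF.mul_const _) (mul_ne_zero hFz (pow_ne_zero _ haL))).deriv
    have hrec : sq w F (k + 1) z / (F z * (a * L) ^ (k + 1)) - 1 =
        deriv Q z / (a * L) + Q z * ((deriv F z / F z + w z - a * L) / (a * L)) + (Q z - 1) := by
      rw [hdQ, pow_succ]
      exact rec_id _ _ _ _ _ _ _ hFz haL (pow_ne_zero k haL)
    rw [hrec]
    have hQ1 : ‖Q z - 1‖ ≤ ε1 := hH z hzr''
    have hQ2 : ‖Q z‖ ≤ 2 := by
      have : Q z = (Q z - 1) + 1 := by ring
      rw [this]
      refine (norm_add_le _ _).trans ?_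
      rw [norm_one]
      linarith
    have hh := (h z hzr).trans (mul_le_mul_of_nonneg_right (min_le_right _ _) hL0.le)
    have t1 : ‖deriv Q z / (a * L)‖ ≤ ε1 := by
      rw [norm_div, haLn, div_le_iff₀ haL0]
      refine hder.trans ?_
      rw [div_le_iff₀ hη0]
      have : 1 ≤ (a * L) * η := by
        rw [div_le_iff₀ (by positivity)] at hLη
        linarith
      nlinarith
    have t2 : ‖Q z * ((deriv F z / F z + w z - a * L) / (a * L))‖ ≤ ε / 4 := by
      rw [norm_mul, norm_div (deriv F z / F z + w z - a * L), haLn]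
      have h6 : ‖deriv F z / F z + w z - a * L‖ / (a * L) ≤ ε / 8 := by
        rw [div_le_iff₀ haL0]
        refine hh.trans (le_of_eq ?_)
        ring
      calc ‖Q z‖ * (‖deriv F z / F z + w z - a * L‖ / (a * L)) ≤ 2 * (ε / 8) := by
            gcongr
        _ = ε / 4 := by ring
    refine (norm_add_le _ _).trans ((add_le_add ((norm_add_le _ _).trans (add_le_add t1 t2)) hQ1).trans ?_)
    linarith

/-- the terms of the sequence have no zeros, and small logarithmic derivatives, where the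
logarithmic derivative of `F` is small -/
theorem asym2 (k : ℕ) {r' r : ℝ} (h0 : 0 < r') (h1 : r' < r) {a ε : ℝ} (ha : 0 < a) (hε : 0 < ε)
    (hε1 : ε ≤ 1 / 2) :
    ∃ ε' L0 : ℝ, 0 < ε' ∧ 0 < L0 ∧ ∀ (F w : ℂ → ℂ) (c : ℂ) (L : ℝ), L0 ≤ L →
      DifferentiableOn ℂ F (ball c r) → DifferentiableOn ℂ w (ball c r) →
      (∀ z ∈ ball c r, F z ≠ 0) → (∀ z ∈ ball c r, ‖deriv F z / F z‖ ≤ ε' * L) →
      (∀ z ∈ ball c r, ‖w z - a * L‖ ≤ ε' * L) →
      ∀ z ∈ ball c r', sq w F k z ≠ 0 ∧ ‖deriv (sq w F k) z / sq w F k z‖ ≤ ε * L ∧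
        ‖F z‖ * (a * L) ^ k / 2 ≤ ‖sq w F k z‖ := by
  set ε1 : ℝ := min (1 / 2) (ε / (16 * a)) with hε1'
  have hε10 : 0 < ε1 := lt_min (by norm_num) (by positivity)
  have hε12 : ε1 ≤ 1 / 2 := min_le_left _ _
  have hε13 : ε1 ≤ ε / (16 * a) := min_le_right _ _
  obtain ⟨e1, L1, he1, hL1, H1⟩ := asym k h0 h1 ha hε10
  obtain ⟨e2, L2, he2, hL2, H2⟩ := asym (k + 1) h0 h1 ha hε10
  refine ⟨min (min (e1 / 2) (e2 / 2)) (ε / 2), max L1 L2,
    lt_min (lt_min (by linarith) (by linarith)) (by linarith), lt_max_of_lt_left hL1, ?_⟩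
  intro F w c L hL hF hw hne hlog hwL z hz
  have hLL1 : L1 ≤ L := (le_max_left _ _).trans hL
  have hLL2 : L2 ≤ L := (le_max_right _ _).trans hL
  have hL0 : 0 < L := hL1.trans_le hLL1
  have haL0 : 0 < a * L := mul_pos ha hL0
  have haL : (a * L : ℂ) ≠ 0 := by exact_mod_cast haL0.ne'
  have haLn : ‖(a * L : ℂ)‖ = a * L := by
    rw [norm_mul, Complex.norm_real, Complex.norm_real, Real.norm_of_nonneg ha.le,
      Real.norm_of_nonneg hL0.le]
  have hsum : ∀ e : ℝ, min (min (e1 / 2) (e2 / 2)) (ε / 2) ≤ e / 2 → ∀ z ∈ ball c r,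
      ‖deriv F z / F z + w z - a * L‖ ≤ e * L := by
    intro e he z hz
    have h2 := hlog z hz
    have h3 := hwL z hz
    have e4 : deriv F z / F z + w z - a * L = deriv F z / F z + (w z - a * L) := by ring
    rw [e4]
    refine (norm_add_le _ _).trans ((add_le_add h2 h3).trans ?_)
    nlinarith
  have g1 := H1 F w c L hLL1 hF hw hne (hsum e1 ((min_le_left _ _).trans (min_le_left _ _))) z hz
  have g2 := H2 F w c L hLL2 hF hw hne (hsum e2 ((min_le_left _ _).trans (min_le_right _ _))) z hz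
  have hzr : z ∈ ball c r := ball_subset_ball h1.le hz
  have hFz := hne z hzr
  set q1 := sq w F k z / (F z * (a * L) ^ k) with hq1
  set q2 := sq w F (k + 1) z / (F z * (a * L) ^ (k + 1)) with hq2
  have hn1 : 1 / 2 ≤ ‖q1‖ := by
    have h3 : ‖(1 : ℂ)‖ ≤ ‖q1‖ + ‖q1 - 1‖ := by
      have e5 : (1 : ℂ) = q1 - (q1 - 1) := by ring
      calc ‖(1 : ℂ)‖ = ‖q1 - (q1 - 1)‖ := congrArg norm e5
        _ ≤ _ := norm_sub_le _ _
    rw [norm_one] at h3
    linarith
  have hq10 : q1 ≠ 0 := by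
    rw [← norm_pos_iff]
    linarith
  have hs0 : sq w F k z ≠ 0 := by
    intro h
    apply hq10
    rw [hq1, h, zero_div]
  have hpw : (F z * (a * L) ^ k) ≠ 0 := mul_ne_zero hFz (pow_ne_zero _ haL)
  refine ⟨hs0, ?_, ?_⟩
  · -- the logarithmic derivative
    have e6 : deriv (sq w F k) z / sq w F k z = (a * L) * ((q2 - 1) / q1 - (q1 - 1) / q1) - (w z - a * L) := by
      have e7 : sq w F (k + 1) z = deriv (sq w F k) z + w z * sq w F k z := rfl
      rw [hq1, hq2, e7, pow_succ]
      exact log_id _ _ _ _ _ _ hs0 hFz haL (pow_ne_zero k haL)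
    rw [e6]
    have t1 : ‖(q2 - 1) / q1‖ ≤ 2 * ε1 := by
      rw [norm_div, div_le_iff₀ (by linarith)]
      nlinarith
    have t2 : ‖(q1 - 1) / q1‖ ≤ 2 * ε1 := by
      rw [norm_div, div_le_iff₀ (by linarith)]
      nlinarith
    have t3 := (hwL z hzr).trans (mul_le_mul_of_nonneg_right (min_le_right _ _) hL0.le)
    have t4 : ‖(a * L : ℂ) * ((q2 - 1) / q1 - (q1 - 1) / q1)‖ ≤ ε / 2 * L := by
      rw [norm_mul, haLn]
      have t5 : ‖(q2 - 1) / q1 - (q1 - 1) / q1‖ ≤ 4 * ε1 := by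
        refine (norm_sub_le _ _).trans ?_
        linarith
      have t6 : a * L * ‖(q2 - 1) / q1 - (q1 - 1) / q1‖ ≤ a * L * (4 * (ε / (16 * a))) := by
        gcongr
        linarith
      refine t6.trans ?_
      have : a * L * (4 * (ε / (16 * a))) = ε / 4 * L := by
        field_simp
        ring
      rw [this]
      nlinarith
    refine (norm_sub_le _ _).trans ((add_le_add t4 t3).trans (le_of_eq ?_))
    ring
  · -- the lower bound
    have e8 : ‖sq w F k z‖ = ‖q1‖ * (‖F z‖ * (a * L) ^ k) := by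
      have : sq w F k z = q1 * (F z * (a * L) ^ k) := by
        rw [hq1]
        field_simp
      rw [this, norm_mul, norm_mul, norm_pow, haLn]
    rw [e8]
    have : 0 ≤ ‖F z‖ * (a * L) ^ k := by positivity
    nlinarith

/-- an equation `φ' = - g`, `g' = - h g` with `h` close to a large number `l` -/
theorem ode {φ g h : ℝ → ℂ} {d l K : ℝ} (hd : 0 ≤ d) (hl : 0 < l) (hK : 0 ≤ K) (hKl : K ≤ l / 4)
    (hdl : Real.log 6 ≤ (l - K) * d)
    (hφ : ∀ x ∈ Icc 0 d, HasDerivAt φ (-g x) x) (hg : ∀ x ∈ Icc 0 d, HasDerivAt g (-(h x * g x)) x)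
    (hh : ∀ x ∈ Icc 0 d, ‖h x - l‖ ≤ K) (h0 : φ 0 = 0) : ‖g 0‖ / (2 * l) ≤ ‖φ d‖ := by
  have hm : 0 < l - K := by linarith
  have hgb : ∀ x ∈ Icc 0 d, ‖g x‖ ≤ ‖g 0‖ * Real.exp (-(l - K) * x) := by
    intro x hx
    have := ratio_upper (f := g) (f' := fun x => -(h x * g x)) (a := 0) (b := x) (K := K) (l := l) hx.1
      (fun y hy => hg y ⟨hy.1, hy.2.trans hx.2⟩) (fun y hy => by
        have e : -(h y * g y) + l * g y = -((h y - l) * g y) := by ring
        rw [e, norm_neg, norm_mul]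
        exact mul_le_mul_of_nonneg_right (hh y ⟨hy.1, hy.2.trans hx.2⟩) (norm_nonneg _))
    refine this.trans (le_of_eq ?_)
    congr 2
    ring
  set ψ : ℝ → ℂ := fun x => (φ x - g x / l) - (φ 0 - g 0 / l) with hψ
  set B : ℝ → ℝ := fun x => K / l * ‖g 0‖ * ((1 - Real.exp (-(l - K) * x)) / (l - K)) with hB
  have hlc : (l : ℂ) ≠ 0 := by exact_mod_cast hl.ne'
  have hψd : ∀ x ∈ Icc 0 d, HasDerivAt ψ (g x * ((h x - l) / l)) x := by
    intro x hx
    have h1 := ((hφ x hx).sub ((hg x hx).div_const (l : ℂ))).sub_const (φ 0 - g 0 / l)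
    refine h1.congr_deriv ?_
    field_simp
    ring
  have hBd : ∀ x : ℝ, HasDerivAt B (K / l * ‖g 0‖ * Real.exp (-(l - K) * x)) x := by
    intro x
    have h1 : HasDerivAt (fun x : ℝ => Real.exp (-(l - K) * x)) (Real.exp (-(l - K) * x) * (-(l - K) * 1)) x :=
      ((hasDerivAt_id x).const_mul (-(l - K))).exp
    have h2 := ((h1.const_sub 1).div_const (l - K)).const_mul (K / l * ‖g 0‖)
    refine h2.congr_deriv ?_
    field_simp
  have key : ∀ x ∈ Icc 0 d, ‖ψ x‖ ≤ B x := by
    refine fun x hx => image_norm_le_of_norm_deriv_right_le_deriv_boundary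
      (f' := fun x => g x * ((h x - l) / l)) (B' := fun x => K / l * ‖g 0‖ * Real.exp (-(l - K) * x))
      ?_ ?_ ?_ ?_ ?_ hx
    · intro x hx
      exact (hψd x hx).continuousAt.continuousWithinAt
    · intro x hx
      exact (hψd x ⟨hx.1, hx.2.le⟩).hasDerivWithinAt
    · simp [hψ, hB]
    · intro x
      exact hBd x
    · intro x hx
      have hx' : x ∈ Icc 0 d := ⟨hx.1, hx.2.le⟩
      rw [norm_mul, norm_div, Complex.norm_real, Real.norm_of_nonneg hl.le]
      calc ‖g x‖ * (‖h x - l‖ / l) ≤ (‖g 0‖ * Real.exp (-(l - K) * x)) * (K / l) := by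
            gcongr
            · exact hgb x hx'
            · exact hh x hx'
        _ = K / l * ‖g 0‖ * Real.exp (-(l - K) * x) := by ring
  have hdm : d ∈ Icc 0 d := ⟨hd, le_rfl⟩
  have k1 := key d hdm
  have k2 := hgb d hdm
  have k3 : Real.exp (-(l - K) * d) ≤ 1 / 6 := by
    have : -(l - K) * d ≤ -Real.log 6 := by linarith
    refine (Real.exp_le_exp.2 this).trans (le_of_eq ?_)
    rw [Real.exp_neg, Real.exp_log (by norm_num)]
    norm_num
  have k4 : B d ≤ ‖g 0‖ / (3 * l) := by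
    simp only [hB]
    have h1 : (1 - Real.exp (-(l - K) * d)) / (l - K) ≤ 1 / (l - K) := by
      gcongr
      linarith [Real.exp_pos (-(l - K) * d)]
    calc K / l * ‖g 0‖ * ((1 - Real.exp (-(l - K) * d)) / (l - K)) ≤ K / l * ‖g 0‖ * (1 / (l - K)) := by
          gcongr
      _ = (K / (l - K)) * (‖g 0‖ / l) := by field_simp
      _ ≤ (1 / 3) * (‖g 0‖ / l) := by
          apply mul_le_mul_of_nonneg_right _ (by positivity)
          rw [div_le_iff₀ hm]
          linarith
      _ = ‖g 0‖ / (3 * l) := by field_simp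
  have e1 : (g 0 / l : ℂ) = ψ d - φ d + g d / l := by
    simp only [hψ, h0]
    ring
  have e2 : ‖g 0‖ / l ≤ ‖ψ d‖ + ‖φ d‖ + ‖g d‖ / l := by
    have e3 : ‖g 0‖ / l = ‖(g 0 / l : ℂ)‖ := by
      rw [norm_div, Complex.norm_real, Real.norm_of_nonneg hl.le]
    have e4 : ‖g d‖ / l = ‖(g d / l : ℂ)‖ := by
      rw [norm_div, Complex.norm_real, Real.norm_of_nonneg hl.le]
    rw [e3, e4, e1]
    exact (norm_add_le _ _).trans (by gcongr; exact norm_sub_le _ _)
  have k5 : ‖g d‖ / l ≤ ‖g 0‖ / (6 * l) := by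
    rw [div_le_div_iff₀ hl (by positivity)]
    have : ‖g d‖ ≤ ‖g 0‖ * (1 / 6) := k2.trans (by gcongr)
    nlinarith
  have e5 : ‖g 0‖ / l = ‖g 0‖ / (3 * l) + ‖g 0‖ / (6 * l) + ‖g 0‖ / (2 * l) := by
    field_simp
    ring
  linarith

end Pool.Agent.L5helper6.DZ
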