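import Pool.Agent.L5helper6.DZ.Local

/-!
# Near a zero of a term of the sequence there is a zero of the next term
-/

set_option autoImplicit false

open Complex Filter Topology Set Metric
open Pool.Agent.H296R2.LE (ratio_upper ratio_lower exists_log ext_ball three_circles)
open Pool.Agent.TH809.MZ (zeta_bounds ZE ZE_eq one_add_le pow_gauss)

namespace Pool.Agent.L5helper6.DZ

lemma lin_exp {A B ε : ℝ} (hA : 0 ≤ A) (hB : 0 ≤ B) (hε : 0 < ε) :
    ∃ L0 : ℝ, 1 ≤ L0 ∧ ∀ L : ℝ, L0 ≤ L → A * L + B ≤ Real.exp (ε * L) := by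
  refine ⟨max 1 (2 * (A + B) / ε ^ 2), le_max_left _ _, fun L hL => ?_⟩
  have h1 : 1 ≤ L := (le_max_left _ _).trans hL
  have h2 := (le_max_right _ _).trans hL
  rw [div_le_iff₀ (by positivity)] at h2
  have h3 := Real.quadratic_le_exp_of_nonneg (x := ε * L) (by positivity)
  have h4 : 0 ≤ ε * L := by positivity
  nlinarith

lemma pow_exp {A B ε : ℝ} (n : ℕ) (hA : 0 ≤ A) (hB : 0 ≤ B) (hε : 0 < ε) :
    ∃ L0 : ℝ, 1 ≤ L0 ∧ ∀ L : ℝ, L0 ≤ L → (A * L + B) ^ n ≤ Real.exp (ε * L) := by
  obtain ⟨L0, hL0, H⟩ := lin_exp hA hB (ε := ε / (n + 1)) (by positivity)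
  refine ⟨L0, hL0, fun L hL => ?_⟩
  have hL1 : 0 < L := by linarith
  calc (A * L + B) ^ n ≤ (Real.exp (ε / (n + 1) * L)) ^ n :=
        pow_le_pow_left₀ (by positivity) (H L hL) n
    _ = Real.exp (n * (ε / (n + 1) * L)) := (Real.exp_nat_mul _ _).symm
    _ ≤ Real.exp (ε * L) := by
        apply Real.exp_le_exp.2
        have : n * (ε / (n + 1) * L) = ε * L * (n / (n + 1)) := by ring
        rw [this]
        have h1 : (n : ℝ) / (n + 1) ≤ 1 := by
          rw [div_le_one (by positivity)]
          linarith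
        have : 0 < ε * L := by positivity
        nlinarith

variable {a u : ℝ} {U : Set ℂ} {w : ℂ → ℂ}

/-- upper bound for the terms of the sequence -/
lemma sq_upper (hM : Mul a u U w) (j : ℕ) {R R' ε : ℝ} (hR : R' < R) (hR2 : R ≤ 2) (hε : 0 < ε) :
    ∃ M : ℝ, 1 ≤ M ∧ ∀ (c p : ℂ) (K : ℝ), M ≤ Lg p → ball c R ⊆ U → (∀ z ∈ ball c R, ‖z - p‖ ≤ 2) →
      (∀ z ∈ ball c R, ‖riemannZeta z‖ ≤ K) → ∀ z ∈ ball c R',
      ‖sq w riemannZeta j z‖ ≤ Real.exp (ε * Lg p) * K := by
  set η : ℝ := (R - R') / (j + 1) with hη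
  have hη0 : 0 < η := div_pos (by linarith) (by positivity)
  have ha := hM.ha
  obtain ⟨L0, hL0, H⟩ := pow_exp (A := 2 * a) (B := 1 / η) (ε := ε) j (by linarith)
    (by positivity) hε
  obtain ⟨M, hM'⟩ := hM.near ha
  refine ⟨max L0 M, hL0.trans (le_max_left _ _), fun c p K h1 h2 h3 h4 z hz => ?_⟩
  have hL : 0 < Lg p := Lg_pos p
  have hcR : 0 < R ∨ R ≤ 0 := lt_or_ge _ _
  have hz' : z ∈ ball c (R - j * η) := by
    apply ball_subset_ball _ hz
    rw [hη]
    have : (j : ℝ) * ((R - R') / (j + 1)) ≤ R - R' := by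
      have h5 : (j : ℝ) * ((R - R') / (j + 1)) = (R - R') * (j / (j + 1)) := by ring
      rw [h5]
      have h6 : (j : ℝ) / (j + 1) ≤ 1 := by
        rw [div_le_one (by positivity)]
        linarith
      nlinarith
    linarith
  have key := up (w := w) (F := riemannZeta) (c := c) (R := R) (η := η) (B := 2 * a * Lg p) (M := K)
    hη0 (by positivity) (hM.zd h2) (hM.diff.mono h2)
    (by
      intro y hy
      have h5 := hM' p ((le_max_right _ _).trans h1) y (h2 hy) (h3 y hy)
      have e : w y = (w y - a * Lg p) + a * Lg p := by ring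
      rw [e]
      refine (norm_add_le _ _).trans ?_
      have h6 : ‖(a * Lg p : ℂ)‖ = a * Lg p := by
        rw [norm_mul, Complex.norm_real, Complex.norm_real, Real.norm_of_nonneg ha.le,
          Real.norm_of_nonneg hL.le]
      rw [h6]
      linarith) h4 j z hz'
  refine key.trans ?_
  have hK : 0 ≤ K := by
    have hzR : z ∈ ball c R := ball_subset_ball hR.le hz
    exact (norm_nonneg _).trans (h4 z hzR)
  apply mul_le_mul_of_nonneg_right _ hK
  exact H (Lg p) ((le_max_left _ _).trans h1)

lemma hasDerivAt_seg' {f : ℂ → ℂ} {f' p : ℂ} {x : ℝ} (h : HasDerivAt f f' (p + x)) :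
    HasDerivAt (fun x : ℝ => f (p + x)) f' x := by
  have h1 : HasDerivAt (fun x : ℝ => p + (x : ℂ)) 1 x := by
    have := (hasDerivAt_id x).ofReal_comp.const_add p
    simpa using this
  have h2 := h.comp x h1
  refine h2.congr_deriv ?_
  ring

/-- **The main step**: near a zero of a term of the sequence there is a zero of the next term. -/
theorem fwd (hM : Mul a u U w) {b κ : ℝ} (hu : u < b) (hb0 : 1 / 2 ≤ b) (hb1 : b ≤ 1) (hf : Free b)
    (hκ0 : 0 ≤ κ) (hκa : κ < a) (hgr : Gr κ b) (j : ℕ) {r : ℝ} (hr : 0 < r) :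
    ∃ δ T0 : ℝ, 0 < δ ∧ ∀ p : ℂ, b - δ ≤ p.re → T0 ≤ p.im →
      sq w riemannZeta j p = 0 → ∃ q ∈ ball p r, sq w riemannZeta (j + 1) q = 0 := by
  obtain ⟨r1, hr10, hgr⟩ := hgr
  -- we may assume that `r` is small
  wlog hr1 : r ≤ min (min (1 / 8) ((b - u) / 4)) r1 generalizing r
  · rw [not_le] at hr1
    obtain ⟨δ, T0, hδ, H⟩ := this (r := min (min (1 / 8) ((b - u) / 4)) r1)
      (lt_min (lt_min (by norm_num) (by linarith)) hr10) le_rfl
    refine ⟨δ, T0, hδ, fun p h1 h2 h3 => ?_⟩
    obtain ⟨q, hq, hq0⟩ := H p h1 h2 h3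
    exact ⟨q, ball_subset_ball hr1.le hq, hq0⟩
  have hr8 : r ≤ 1 / 8 := hr1.trans ((min_le_left _ _).trans (min_le_left _ _))
  have hru : r ≤ (b - u) / 4 := hr1.trans ((min_le_left _ _).trans (min_le_right _ _))
  have hrr1 : r ≤ r1 := hr1.trans (min_le_right _ _)
  have ha := hM.ha
  set d : ℝ := r / 8 with hd
  have hd0 : 0 < d := by rw [hd]; linarith
  have hd1 : d ≤ 1 / 64 := by rw [hd]; linarith
  set s0 : ℝ := a - κ with hs0
  have hs00 : 0 < s0 := by rw [hs0]; linarith
  set δ : ℝ := min (r / 32) (s0 * d / (8 * (κ + 1))) with hδ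
  have hδ0 : 0 < δ := lt_min (by linarith) (by positivity)
  have hδr : δ ≤ r / 32 := min_le_left _ _
  have hδs : κ * (δ + δ) ≤ s0 * d / 4 := by
    have h1 : δ ≤ s0 * d / (8 * (κ + 1)) := min_le_right _ _
    rw [le_div_iff₀ (by positivity)] at h1
    nlinarith
  set ε : ℝ := min (s0 * d / 64) (1 / 2) with hε
  have hε0 : 0 < ε := lt_min (by positivity) (by norm_num)
  have hε2 : ε ≤ 1 / 2 := min_le_right _ _
  have hεs : ε ≤ s0 * d / 64 := min_le_left _ _
  have hs0a : s0 ≤ a := by rw [hs0]; linarith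
  have hεa : 2 * ε ≤ a / 4 := by
    have : s0 * d ≤ a * 1 := by
      apply mul_le_mul hs0a (by linarith) hd0.le ha.le
    linarith
  obtain ⟨A0, hA0, hg⟩ := growth
  obtain ⟨ε', hε', HX⟩ := ext0 (r := r / 16) (ρ := r / 2) (R := 3 * r / 4) (by linarith) (by linarith)
    (by linarith) (A := 2 * A0 + 4) (by linarith) hε0
  set ε2 : ℝ := min (min (ε' / 2) (r / 32)) ε with hε2'
  have hε20 : 0 < ε2 := lt_min (lt_min (by linarith) (by linarith)) hε0
  have hε2a : ε2 ≤ ε' / 2 := (min_le_left _ _).trans (min_le_left _ _)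
  have hε2b : ε2 ≤ r / 32 := (min_le_left _ _).trans (min_le_right _ _)
  have hε2c : ε2 ≤ ε := min_le_right _ _
  obtain ⟨T1, hT1⟩ := right2 hM hu (by linarith) hb1 hf (j + 1) hε20 (hε2c.trans hε2)
  obtain ⟨T1', hT1'⟩ := right2 hM hu (by linarith) hb1 hf j (ε := r / 16) (by linarith) (by linarith)
  obtain ⟨T2, hT2⟩ := low (by linarith) hb1 hf hε20
  obtain ⟨T3, hT3⟩ := hgr ε hε0
  obtain ⟨M1, hM1, hU1⟩ := sq_upper hM (j + 1) (R := 2 * r) (R' := r) (ε := 1) (by linarith)
    (by linarith) one_pos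
  obtain ⟨M2, hM2, hU2⟩ := sq_upper hM j (R := δ) (R' := δ / 2) (ε := ε) (by linarith)
    (by linarith) hε0
  obtain ⟨M3, hM3⟩ := hM.near hε0
  obtain ⟨M4, hM4, hL4⟩ := lin_exp (A := 4 * a) (B := 0) (ε := ε) (by linarith) le_rfl hε0
  set M5 : ℝ := (κ * (δ + d + δ) + ε) / ε with hM5
  set M6 : ℝ := Real.log 6 / ((a - 2 * ε) * d) with hM6
  set M7 : ℝ := 2 + 2 / a with hM7
  set MM : ℝ := max (max (max M1 M2) (max M3 M4)) (max (max M5 M6) M7) with hMM
  set TT : ℝ := max (max T1 T1') (max T2 T3) with hTT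
  refine ⟨δ, max (TT + 1) (max 5 (Real.exp MM)), hδ0, fun p h1 h2 h3 => ?_⟩
  have k1 : TT + 1 ≤ p.im := (le_max_left _ _).trans h2
  have kT1 : T1 ≤ TT := (le_max_left _ _).trans (le_max_left _ _)
  have kT1' : T1' ≤ TT := (le_max_right _ _).trans (le_max_left _ _)
  have kT2 : T2 ≤ TT := (le_max_left _ _).trans (le_max_right _ _)
  have kT3 : T3 ≤ TT := (le_max_right _ _).trans (le_max_right _ _)
  have k2 : 5 ≤ p.im := ((le_max_left _ _).trans (le_max_right _ _)).trans h2
  have k3 := Lg_ge (((le_max_right _ _).trans (le_max_right _ _)).trans h2)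
  set L : ℝ := Lg p with hL
  have kM1 : M1 ≤ L := ((le_max_left _ _).trans ((le_max_left _ _).trans (le_max_left _ _))).trans k3
  have kM2 : M2 ≤ L := ((le_max_right _ _).trans ((le_max_left _ _).trans (le_max_left _ _))).trans k3
  have kM3 : M3 ≤ L := ((le_max_left _ _).trans ((le_max_right _ _).trans (le_max_left _ _))).trans k3
  have kM4 : M4 ≤ L := ((le_max_right _ _).trans ((le_max_right _ _).trans (le_max_left _ _))).trans k3
  have kM5 : M5 ≤ L := ((le_max_left _ _).trans ((le_max_left _ _).trans (le_max_right _ _))).trans k3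
  have kM6 : M6 ≤ L := ((le_max_right _ _).trans ((le_max_left _ _).trans (le_max_right _ _))).trans k3
  have kM7 : M7 ≤ L := ((le_max_right _ _).trans (le_max_right _ _)).trans k3
  have hL1 : 1 ≤ L := hM1.trans kM1
  have hL0 : 0 < L := by linarith
  by_contra hcon
  have hne : ∀ q ∈ ball p r, sq w riemannZeta (j + 1) q ≠ 0 := fun q hq h => hcon ⟨q, hq, h⟩
  -- the real part of `p`
  have hpre : p.re < b + r / 16 := by
    by_contra hp
    rw [not_lt] at hp
    exact (hT1' p hp (by linarith)).1 h3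
  set G : ℂ → ℂ := sq w riemannZeta (j + 1) with hG
  set F : ℂ → ℂ := sq w riemannZeta j with hF
  set c : ℂ := p + (r / 4 : ℝ) with hc
  have hcre : c.re = p.re + r / 4 := by rw [hc, add_re, ofReal_re]
  have hcim : c.im = p.im := by rw [hc, add_im, ofReal_im, add_zero]
  have hpc : ‖p - c‖ = r / 4 := by
    rw [hc, sub_add_cancel_left, norm_neg, Complex.norm_real, Real.norm_of_nonneg (by linarith)]
  have hLc := abs_le.1 (Lg_near (z := c) (c := p) (by rw [norm_sub_rev, hpc]; linarith))
  have hsubU : ∀ (y : ℂ) (R : ℝ), R ≤ 2 * r → y.re ≥ b - r → y.im = p.im → ball y R ⊆ U := by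
    intro y R hR g1 g2 z hz
    obtain ⟨q1, q2, q3, q4, q5⟩ := mem_ball_re_im hz
    exact hM.sub z (by linarith) (by linarith)
  have hpU : ball p r ⊆ U := hsubU p r (by linarith) (by linarith) rfl
  have hsub : ball c (3 * r / 4) ⊆ ball p r := by
    apply ball_subset_ball'
    rw [dist_eq_norm, norm_sub_rev, hpc]
    linarith
  have hcU : ball c (2 * r) ⊆ U := hsubU c (2 * r) le_rfl (by rw [hcre]; linarith) hcim
  -- lower bound for `G c`
  have hGc : Real.exp (-(2 * ε * L)) ≤ ‖G c‖ := by
    have g1 := (hT1 c (by rw [hcre]; linarith) (by rw [hcim]; linarith)).2.2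
    have g2 := (hT2 c (by rw [hcre]; linarith) (by rw [hcre]; linarith) (by rw [hcim]; linarith)).1
    have g3 : 2 ≤ a * Lg c := by
      have h5 : M7 ≤ L := kM7
      have h6 : 1 + 2 / a ≤ Lg c := by rw [hM7] at h5; linarith
      calc 2 = a * (2 / a) := by field_simp
        _ ≤ a * Lg c := by
          apply mul_le_mul_of_nonneg_left _ ha.le
          linarith
    have g4 : 2 ≤ (a * Lg c) ^ (j + 1) := by
      calc (2 : ℝ) = 2 ^ 1 := by norm_num
        _ ≤ 2 ^ (j + 1) := pow_le_pow_right₀ (by norm_num) (by omega)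
        _ ≤ _ := pow_le_pow_left₀ (by norm_num) g3 _
    have g5 : Real.exp (-(2 * ε * L)) ≤ Real.exp (-(ε2 * Lg c)) := by
      apply Real.exp_le_exp.2
      have h7 : ε2 * Lg c ≤ ε * (2 * L) := by
        apply mul_le_mul hε2c (by linarith) (Lg_pos c).le hε0.le
      linarith
    calc Real.exp (-(2 * ε * L)) ≤ ‖riemannZeta c‖ := g5.trans g2
      _ = ‖riemannZeta c‖ * 2 / 2 := by ring
      _ ≤ ‖riemannZeta c‖ * (a * Lg c) ^ (j + 1) / 2 := by gcongr
      _ ≤ _ := g1
  -- small logarithmic derivative of `G`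
  have hlogG : ∀ z ∈ closedBall c (r / 2), ‖deriv G z / G z‖ ≤ ε * L := by
    apply HX G c L hL0
    · exact (sq_diff hM.isOpen (hM.zd le_rfl) hM.diff (j + 1)).mono (hsub.trans hpU)
    · exact fun z hz => hne z (hsub hz)
    · intro z hz
      have g1 := hU1 c p (Real.exp (A0 * (2 * L))) kM1 hcU
        (by
          intro y hy
          have q5 := (mem_ball_re_im hy).2.2.2.2
          have e : y - p = (y - c) - (p - c) := by ring
          rw [e]
          refine (norm_sub_le _ _).trans ?_
          rw [hpc]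
          linarith)
        (by
          intro y hy
          obtain ⟨q1, q2, q3, q4, q5⟩ := mem_ball_re_im hy
          rw [hcre] at q1 q2
          rw [hcim] at q3 q4
          refine (hg y (by linarith) (by linarith) (by linarith)).trans ?_
          apply Real.exp_le_exp.2
          apply mul_le_mul_of_nonneg_left _ (by linarith)
          have := (abs_le.1 (Lg_near (z := y) (c := p) (by
            have e : y - p = (y - c) - (p - c) := by ring
            rw [e]
            refine (norm_sub_le _ _).trans ?_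
            rw [hpc]
            linarith))).2
          linarith) z (ball_subset_ball (by linarith) hz)
      calc ‖G z‖ ≤ Real.exp (1 * L) * Real.exp (A0 * (2 * L)) := g1
        _ = Real.exp ((2 * A0 + 1) * L) := by
            rw [← Real.exp_add]
            ring_nf
        _ ≤ Real.exp ((2 * A0 + 4) * L) * Real.exp (-(2 * ε * L)) := by
            rw [← Real.exp_add]
            apply Real.exp_le_exp.2
            nlinarith
        _ ≤ _ := by gcongr
    · intro z hz
      obtain ⟨q1, q2, q3, q4, q5⟩ := mem_closedBall_re_im hz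
      rw [hcre] at q1 q2
      rw [hcim] at q3 q4
      have g1 := (hT1 z (by linarith) (by linarith)).2.1
      refine g1.trans ?_
      have g2 := (abs_le.1 (Lg_near (z := z) (c := p) (by
        have e : z - p = (z - c) - (p - c) := by ring
        rw [e]
        refine (norm_sub_le _ _).trans ?_
        rw [hpc]
        linarith))).2
      calc ε2 * Lg z ≤ ε' / 2 * (2 * L) := by
            apply mul_le_mul hε2a (by linarith) (Lg_pos z).le (by linarith)
        _ = _ := by ring
  have hball4 : ∀ z ∈ ball p (r / 4), z ∈ closedBall c (r / 2) := by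
    intro z hz
    rw [mem_closedBall, dist_eq_norm]
    have e : z - c = (z - p) + (p - c) := by ring
    rw [e]
    refine (norm_add_le _ _).trans ?_
    rw [hpc]
    have := (mem_ball_re_im hz).2.2.2.2
    linarith
  -- lower bound for `G p`
  have hGp : Real.exp (-(3 * ε * L)) ≤ ‖G p‖ := by
    have hGd : ∀ x ∈ Icc (0 : ℝ) (r / 4), HasDerivAt (fun x : ℝ => G (p + x)) (deriv G (p + x)) x := by
      intro x hx
      apply hasDerivAt_seg'
      have hmem : p + x ∈ ball p r := by
        rw [mem_ball, dist_eq_norm, add_sub_cancel_left, Complex.norm_real,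
          Real.norm_of_nonneg hx.1]
        linarith [hx.2]
      exact (((sq_diff hM.isOpen (hM.zd le_rfl) hM.diff (j + 1)).mono hpU) _ hmem).differentiableAt
        (isOpen_ball.mem_nhds hmem) |>.hasDerivAt
    have hGb : ∀ x ∈ Icc (0 : ℝ) (r / 4), ‖deriv G (p + x) + ((0 : ℝ) : ℂ) * G (p + x)‖ ≤
        ε * L * ‖G (p + x)‖ := by
      intro x hx
      have hmem : p + x ∈ closedBall c (r / 2) := by
        rw [mem_closedBall, dist_eq_norm]
        have e : p + x - c = ((x - r / 4 : ℝ) : ℂ) := by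
          rw [hc]
          push_cast
          ring
        rw [e, Complex.norm_real, Real.norm_eq_abs, abs_le]
        constructor <;> linarith [hx.1, hx.2]
      have hmem' : p + x ∈ ball p r := by
        rw [mem_ball, dist_eq_norm, add_sub_cancel_left, Complex.norm_real,
          Real.norm_of_nonneg hx.1]
        linarith [hx.2]
      have g1 := hlogG _ hmem
      have g2 : 0 < ‖G (p + x)‖ := norm_pos_iff.2 (hne _ hmem')
      rw [norm_div, div_le_iff₀ g2] at g1
      rw [Complex.ofReal_zero, zero_mul, add_zero]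
      exact g1
    have g3 := ratio_upper (l := 0) (by linarith : (0 : ℝ) ≤ r / 4) hGd hGb
    simp only [Complex.ofReal_zero, add_zero, sub_zero] at g3
    have e : p + ((r / 4 : ℝ) : ℂ) = c := hc.symm
    rw [e] at g3
    have g4 : Real.exp (ε * L * (r / 4)) ≤ Real.exp (ε * L) := by
      apply Real.exp_le_exp.2
      have : 0 < ε * L := by positivity
      nlinarith
    have g5 : Real.exp (-(2 * ε * L)) ≤ ‖G p‖ * Real.exp (ε * L) := by
      refine hGc.trans (g3.trans ?_)
      gcongr
    calc Real.exp (-(3 * ε * L)) = Real.exp (-(2 * ε * L)) * Real.exp (-(ε * L)) := by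
          rw [← Real.exp_add]
          ring_nf
      _ ≤ (‖G p‖ * Real.exp (ε * L)) * Real.exp (-(ε * L)) := by gcongr
      _ = ‖G p‖ := by
          rw [mul_assoc, ← Real.exp_add, add_neg_cancel, Real.exp_zero, mul_one]
  -- the large value
  have hbig := rev_ball (a := a) (ε := ε) (d := d) (L := L) (r := r / 4) ha hε0 hεa hd0
    (by rw [hd]; linarith) hL0
    (by
      have h5 : M6 ≤ L := kM6
      rw [hM6, div_le_iff₀ (mul_pos (by linarith) hd0)] at h5
      linarith)
    (F := F) (G := G) (w := w) (p := p)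
    ((sq_diff hM.isOpen (hM.zd le_rfl) hM.diff j).mono ((ball_subset_ball (by linarith)).trans hpU))
    ((sq_diff hM.isOpen (hM.zd le_rfl) hM.diff (j + 1)).mono
      ((ball_subset_ball (by linarith)).trans hpU))
    (hM.diff.mono ((ball_subset_ball (by linarith)).trans hpU))
    (fun z _ => rfl) (fun z hz => hne z (ball_subset_ball (by linarith) hz)) h3
    (fun z hz => hlogG z (hball4 z hz))
    (fun z hz => by
      have hz5 := (mem_ball_re_im hz).2.2.2.2
      exact hM3 p kM3 z (hpU (ball_subset_ball (by linarith) hz)) (by linarith))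
  -- the upper bound
  set y : ℂ := p - d with hy
  have hyre : y.re = p.re - d := by rw [hy, sub_re, ofReal_re]
  have hyim : y.im = p.im := by rw [hy, sub_im, ofReal_im, sub_zero]
  have hyp : ‖y - p‖ = d := by
    have e : y - p = -(d : ℂ) := by rw [hy]; ring
    rw [e, norm_neg, Complex.norm_real, Real.norm_of_nonneg hd0.le]
  have hsmall := hU2 y p (Real.exp ((κ * (δ + d + δ) + ε) * (L + 1))) kM2
    (hsubU y δ (by linarith) (by rw [hyre]; linarith) hyim)
    (by
      intro z hz
      have q5 := (mem_ball_re_im hz).2.2.2.2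
      have e : z - p = (z - y) + (y - p) := by ring
      rw [e]
      refine (norm_add_le _ _).trans ?_
      rw [hyp]
      linarith)
    (by
      intro z hz
      obtain ⟨q1, q2, q3, q4, q5⟩ := mem_ball_re_im hz
      rw [hyre] at q1 q2
      rw [hyim] at q3 q4
      refine (hT3 z (by linarith) (by linarith) (by linarith)).trans ?_
      apply Real.exp_le_exp.2
      have g1 : max (b - z.re) 0 ≤ δ + d + δ := max_le (by linarith) (by linarith)
      have g2 := (abs_le.1 (Lg_near (z := z) (c := p) (by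
        have e : z - p = (z - y) + (y - p) := by ring
        rw [e]
        refine (norm_add_le _ _).trans ?_
        rw [hyp]
        linarith))).2
      apply mul_le_mul _ (by linarith) (Lg_pos z).le (by positivity)
      have := mul_le_mul_of_nonneg_left g1 hκ0
      linarith) y (mem_ball_self (by linarith))
  -- comparison
  have c1 : Real.exp (((a - ε) * d - 4 * ε) * L) ≤ ‖F y‖ := by
    refine le_trans ?_ hbig
    have g1 : 4 * a * L ≤ Real.exp (ε * L) := by
      have := hL4 L kM4
      linarith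
    have g2 : Real.exp (-(ε * L)) ≤ 1 / (2 * (a * L)) := by
      rw [Real.exp_neg, inv_eq_one_div]
      apply one_div_le_one_div_of_le (by positivity)
      have : 0 < a * L := by positivity
      linarith
    calc Real.exp (((a - ε) * d - 4 * ε) * L)
        = Real.exp (-(3 * ε * L)) * Real.exp (-(ε * L)) * Real.exp ((a - ε) * L * d) := by
          rw [← Real.exp_add, ← Real.exp_add]
          ring_nf
      _ ≤ ‖G p‖ * (1 / (2 * (a * L))) * Real.exp ((a - ε) * L * d) := by gcongr
      _ = _ := by ring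
  have c2 : ‖F y‖ ≤ Real.exp ((κ * (δ + d + δ) + 3 * ε) * L) := by
    refine hsmall.trans ?_
    rw [← Real.exp_add]
    apply Real.exp_le_exp.2
    have h5 : M5 ≤ L := kM5
    rw [hM5, div_le_iff₀ hε0] at h5
    nlinarith
  have c3 := Real.exp_le_exp.1 (c1.trans c2)
  have c4 : ((a - ε) * d - 4 * ε) ≤ κ * (δ + d + δ) + 3 * ε := le_of_mul_le_mul_right c3 hL0
  have c5 : s0 * d ≤ κ * (δ + δ) + 7 * ε + ε * d := by
    rw [hs0]
    nlinarith
  have c6 : ε * d ≤ ε := by nlinarith
  have c7 : 0 < s0 * d := by positivity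
  linarith

end Pool.Agent.L5helper6.DZ
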