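import Pool.Agent.L5helper6.DZ.Zeta

/-!
# Convexity bounds near the line of the last zeros
-/

set_option autoImplicit false

open Complex Filter Topology Set Metric
open Pool.Agent.H296R2.LE (ratio_upper ratio_lower exists_log ext_ball three_circles)
open Pool.Agent.TH809.MZ (zeta_bounds ZE ZE_eq one_add_le pow_gauss)

namespace Pool.Agent.L5helper6.DZ

lemma norm_exp_sq2 (z : ℂ) (T : ℝ) :
    ‖cexp ((z - T * I) ^ 2)‖ = Real.exp (z.re ^ 2 - (z.im - T) ^ 2) := by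
  rw [Complex.norm_exp]
  congr 1
  have h1 : (z - T * I).re = z.re := by simp
  have h2 : (z - T * I).im = z.im - T := by simp
  rw [pow_two, mul_re, h1, h2]
  ring

/-- the size of zeta to the right of the zeros -/
theorem low {b : ℝ} (hb0 : 0 ≤ b) (hb1 : b ≤ 1) (hf : Free b) {ε : ℝ} (hε : 0 < ε) :
    ∃ T0 : ℝ, ∀ s : ℂ, b + ε ≤ s.re → s.re ≤ 2 → T0 ≤ s.im →
      Real.exp (-(ε * Lg s)) ≤ ‖riemannZeta s‖ ∧ ‖riemannZeta s‖ ≤ Real.exp (ε * Lg s) := by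
  obtain ⟨T1, hT1⟩ := small hb0 hb1 hf (ε := ε / 16) (by linarith)
  obtain ⟨A1, hA1, hzb⟩ := zeta_bounds (a := 9 / 8) (by norm_num)
  have hA0 : 0 < A1 := by linarith
  refine ⟨max T1 (max 4 (Real.exp (2 * Real.log A1 / ε))), fun s h1 h2 h3 => ?_⟩
  have g1 : T1 ≤ s.im := (le_max_left _ _).trans h3
  have g2 : 4 ≤ s.im := ((le_max_left _ _).trans (le_max_right _ _)).trans h3
  have g3 := Lg_ge (((le_max_right _ _).trans (le_max_right _ _)).trans h3)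
  have g4 : 1 ≤ Lg s := by
    apply Lg_ge
    linarith [Real.exp_one_lt_d9]
  rw [div_le_iff₀ hε] at g3
  set K : ℝ := ε / 8 * Lg s with hK
  have hK0 : 0 < K := by have := Lg_pos s; positivity
  let f : ℝ → ℂ := fun x => riemannZeta ⟨x, s.im⟩
  let f' : ℝ → ℂ := fun x => deriv riemannZeta ⟨x, s.im⟩
  have hne : ∀ x : ℝ, (⟨x, s.im⟩ : ℂ) ≠ 1 := by
    intro x h
    have := congrArg im h
    rw [one_im] at this
    simp only at this
    linarith
  have hd : ∀ x ∈ Icc s.re 2, HasDerivAt f (f' x) x := by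
    intro x _
    have e : (fun x : ℝ => (⟨x, s.im⟩ : ℂ)) = fun x : ℝ => (x : ℂ) + s.im * I := by
      funext x
      apply Complex.ext <;> simp
    have h4 : HasDerivAt (fun x : ℝ => (⟨x, s.im⟩ : ℂ)) 1 x := by
      rw [e]
      have := (hasDerivAt_id x).ofReal_comp.add_const ((s.im : ℂ) * I)
      simpa using this
    have h5 : HasDerivAt riemannZeta (f' x) (⟨x, s.im⟩ : ℂ) :=
      (differentiableAt_riemannZeta (hne x)).hasDerivAt
    have h6 := h5.comp x h4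
    rw [mul_one] at h6
    exact h6
  have hb : ∀ x ∈ Icc s.re 2, ‖f' x + (0 : ℝ) * f x‖ ≤ K * ‖f x‖ := by
    intro x hx
    have h4 := hT1 (⟨x, s.im⟩ : ℂ) (by show b + ε / 16 ≤ x; linarith [hx.1]) g1
    have h5 : ‖(⟨x, s.im⟩ : ℂ) - s‖ ≤ 2 := by
      have e : (⟨x, s.im⟩ : ℂ) - s = ((x - s.re : ℝ) : ℂ) := by
        apply Complex.ext <;> simp
      rw [e, Complex.norm_real, Real.norm_eq_abs, abs_of_nonneg (by linarith [hx.1])]
      linarith [hx.2]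
    have h6 := (abs_le.1 (Lg_near h5)).2
    have h7 : 0 < ‖f x‖ := norm_pos_iff.2 h4.1
    have h8 := h4.2
    rw [norm_div, div_le_iff₀ h7] at h8
    rw [Complex.ofReal_zero, zero_mul, add_zero]
    refine h8.trans ?_
    apply mul_le_mul_of_nonneg_right _ h7.le
    rw [hK]
    nlinarith
  have h4 := ratio_upper (l := 0) h2 hd hb
  have h5 := ratio_lower (l := 0) h2 hd hb
  have e0 : f s.re = riemannZeta s := rfl
  rw [e0] at h4 h5
  have h6 : ‖f 2‖ ≤ A1 ∧ 1 / A1 ≤ ‖f 2‖ := hzb _ (by show (9 / 8 : ℝ) ≤ 2; norm_num)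
  have h7 : Real.exp (K * (2 - s.re)) ≤ Real.exp (ε / 4 * Lg s) := by
    apply Real.exp_le_exp.2
    rw [hK]
    have := Lg_pos s
    have h8 : 2 - s.re ≤ 2 := by linarith
    calc ε / 8 * Lg s * (2 - s.re) ≤ ε / 8 * Lg s * 2 := by gcongr
      _ = _ := by ring
  have h8 : A1 ≤ Real.exp (ε / 2 * Lg s) := by
    rw [← Real.log_le_iff_le_exp hA0]
    linarith
  rw [sub_zero] at h4
  rw [add_zero] at h5
  constructor
  · have h9 : 1 / A1 ≤ ‖riemannZeta s‖ * Real.exp (ε / 4 * Lg s) := by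
      refine h6.2.trans (h4.trans ?_)
      gcongr
    rw [div_le_iff₀ hA0] at h9
    have h10 : 1 ≤ ‖riemannZeta s‖ * Real.exp (ε * Lg s) := by
      calc 1 ≤ ‖riemannZeta s‖ * Real.exp (ε / 4 * Lg s) * A1 := h9
        _ ≤ ‖riemannZeta s‖ * Real.exp (ε / 4 * Lg s) * Real.exp (ε / 2 * Lg s) := by gcongr
        _ = ‖riemannZeta s‖ * Real.exp ((ε / 4 + ε / 2) * Lg s) := by
            rw [mul_assoc, ← Real.exp_add]
            ring_nf
        _ ≤ _ := by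
            apply mul_le_mul_of_nonneg_left _ (norm_nonneg _)
            apply Real.exp_le_exp.2
            apply mul_le_mul_of_nonneg_right _ (Lg_pos s).le
            linarith
    rw [Real.exp_neg, inv_le_iff_one_le_mul₀ (Real.exp_pos _)]
    exact h10
  · calc ‖riemannZeta s‖ ≤ ‖f 2‖ * Real.exp (K * (2 - s.re)) := h5
      _ ≤ Real.exp (ε / 2 * Lg s) * Real.exp (ε / 4 * Lg s) := by
          gcongr
          exact h6.1.trans h8
      _ = Real.exp ((ε / 2 + ε / 4) * Lg s) := by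
          rw [← Real.exp_add]
          ring_nf
      _ ≤ _ := by
          apply Real.exp_le_exp.2
          apply mul_le_mul_of_nonneg_right _ (Lg_pos s).le
          linarith

lemma ZE_diff : Differentiable ℂ ZE := Pool.Agent.H448R2.GC.zeta_one_entire

/-- a bound for `(s - 1) ζ(s)` on the whole line from a bound for `ζ(s)` at large heights -/
lemma line_bound {σ α : ℝ} (hσ : -1 ≤ σ) (hσ2 : σ ≤ 2) (hα : 0 ≤ α) {C T1 : ℝ}
    (h : ∀ t : ℝ, T1 ≤ |t| → ‖riemannZeta ⟨σ, t⟩‖ ≤ C * (1 + |t|) ^ α) :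
    ∃ D : ℝ, 1 ≤ D ∧ ∀ t : ℝ, ‖ZE ⟨σ, t⟩‖ ≤ D * (1 + |t|) ^ (1 + α) := by
  have hcont : Continuous fun t : ℝ => ZE ⟨σ, t⟩ := by
    have e : (fun t : ℝ => ZE ⟨σ, t⟩) = fun t : ℝ => ZE ((σ : ℂ) + t * I) := by
      funext t
      congr 1
      apply Complex.ext <;> simp
    rw [e]
    exact ZE_diff.continuous.comp (by fun_prop)
  set T2 : ℝ := max T1 1 with hT2
  have hT21 : 1 ≤ T2 := le_max_right _ _
  obtain ⟨D, hD⟩ := (isCompact_Icc (a := -T2) (b := T2)).exists_bound_of_continuousOn hcont.continuousOn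
  refine ⟨max (max D (4 * |C|)) 1, le_max_right _ _, fun t => ?_⟩
  have hp : 1 ≤ (1 + |t|) ^ (1 + α) :=
    Real.one_le_rpow (by linarith [abs_nonneg t]) (by linarith)
  have hM0 : 0 ≤ max (max D (4 * |C|)) 1 := zero_le_one.trans (le_max_right _ _)
  by_cases ht : |t| ≤ T2
  · calc ‖ZE ⟨σ, t⟩‖ ≤ D := hD t (abs_le.1 ht)
      _ ≤ max (max D (4 * |C|)) 1 := (le_max_left _ _).trans (le_max_left _ _)
      _ ≤ _ := le_mul_of_one_le_right hM0 hp
  · rw [not_le] at ht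
    have hne : (⟨σ, t⟩ : ℂ) ≠ 1 := by
      intro e
      have := congrArg im e
      rw [one_im] at this
      simp only at this
      rw [this, abs_zero] at ht
      linarith
    rw [ZE_eq hne, norm_mul]
    have h1 := h t ((le_max_left _ _).trans ht.le)
    have h2 : ‖(⟨σ, t⟩ : ℂ) - 1‖ ≤ 4 * (1 + |t|) := by
      refine (norm_le_abs_re_add_abs_im _).trans ?_
      rw [sub_re, sub_im, one_re, one_im, sub_zero]
      have : |σ - 1| ≤ 2 := by rw [abs_le]; constructor <;> linarith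
      have := abs_nonneg t
      linarith
    have h3 : (1 + |t|) ^ (1 + α) = (1 + |t|) * (1 + |t|) ^ α := by
      rw [Real.rpow_add (by positivity), Real.rpow_one]
    rw [h3]
    calc ‖(⟨σ, t⟩ : ℂ) - 1‖ * ‖riemannZeta ⟨σ, t⟩‖ ≤ (4 * (1 + |t|)) * (|C| * (1 + |t|) ^ α) := by
          gcongr
          exact h1.trans (mul_le_mul_of_nonneg_right (le_abs_self C) (by positivity))
      _ = (4 * |C|) * ((1 + |t|) * (1 + |t|) ^ α) := by ring
      _ ≤ _ := by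
          apply mul_le_mul_of_nonneg_right _ (by positivity)
          exact (le_max_right _ _).trans (le_max_left _ _)

/-- convexity -/
theorem interp {σ0 σ1 α0 α1 : ℝ} (h01 : σ0 < σ1) (hσ0 : -1 ≤ σ0) (hσ1 : σ1 ≤ 2) (hα0 : 0 ≤ α0)
    (hα1 : 0 ≤ α1) {C0 T0 C1 T1 : ℝ}
    (h0 : ∀ t : ℝ, T0 ≤ |t| → ‖riemannZeta ⟨σ0, t⟩‖ ≤ C0 * (1 + |t|) ^ α0)
    (h1 : ∀ t : ℝ, T1 ≤ |t| → ‖riemannZeta ⟨σ1, t⟩‖ ≤ C1 * (1 + |t|) ^ α1) :
    ∃ C : ℝ, 0 < C ∧ ∀ σ t : ℝ, σ0 ≤ σ → σ ≤ σ1 → 1 ≤ t →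
      ‖riemannZeta ⟨σ, t⟩‖ ≤ C * t ^ ((1 - (σ - σ0) / (σ1 - σ0)) * α0 + (σ - σ0) / (σ1 - σ0) * α1) := by
  obtain ⟨D0, hD01, hD0⟩ := line_bound hσ0 (by linarith) hα0 h0
  obtain ⟨D1, hD11, hD1⟩ := line_bound (by linarith) hσ1 hα1 h1
  have hs : 0 < σ1 - σ0 := by linarith
  -- bound for the auxiliary function on a line
  have line : ∀ (σ α D T : ℝ), -1 ≤ σ → σ ≤ 2 → 0 ≤ α → 1 ≤ D → 1 ≤ T →
      (∀ t : ℝ, ‖ZE ⟨σ, t⟩‖ ≤ D * (1 + |t|) ^ (1 + α)) → ∀ z : ℂ, z.re = σ →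
      ‖ZE z * cexp ((z - T * I) ^ 2)‖ ≤ (D * Real.exp 4 * 2 ^ (1 + α) * Real.exp ((1 + α) ^ 2)) *
        T ^ (1 + α) := by
    intro σ α D T g1 g2 g3 g4 g5 g6 z hz
    have hT0 : 0 < T := by linarith
    have e1 : z = ⟨σ, z.im⟩ := by
      apply Complex.ext
      · exact hz
      · rfl
    have e3 : ‖cexp ((z - T * I) ^ 2)‖ = Real.exp (σ ^ 2 - (z.im - T) ^ 2) := by
      rw [norm_exp_sq2, hz]
    rw [norm_mul, e3, e1]
    simp only
    set y := z.im - T with hy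
    have e4 : z.im = T + y := by rw [hy]; ring
    have k1 := g6 z.im
    have k2 : (1 + |z.im|) ^ (1 + α) ≤ 2 ^ (1 + α) * T ^ (1 + α) * (1 + |y|) ^ (1 + α) := by
      rw [← Real.mul_rpow (by norm_num) hT0.le, ← Real.mul_rpow (by positivity) (by positivity)]
      apply Real.rpow_le_rpow (by positivity) _ (by linarith)
      rw [e4]
      exact one_add_le g5
    have k3 := pow_gauss (r := 1 + α) (by linarith) y
    have k4 : Real.exp (σ ^ 2 - y ^ 2) ≤ Real.exp 4 * Real.exp (-y ^ 2) := by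
      rw [← Real.exp_add]
      apply Real.exp_le_exp.2
      nlinarith
    calc ‖ZE ⟨σ, z.im⟩‖ * Real.exp (σ ^ 2 - y ^ 2)
        ≤ (D * (2 ^ (1 + α) * T ^ (1 + α) * (1 + |y|) ^ (1 + α))) * (Real.exp 4 * Real.exp (-y ^ 2)) := by
          apply mul_le_mul (k1.trans (mul_le_mul_of_nonneg_left k2 (by linarith))) k4
            (Real.exp_pos _).le (by positivity)
      _ = D * 2 ^ (1 + α) * T ^ (1 + α) * Real.exp 4 * ((1 + |y|) ^ (1 + α) * Real.exp (-y ^ 2)) := by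
          ring
      _ ≤ D * 2 ^ (1 + α) * T ^ (1 + α) * Real.exp 4 * Real.exp ((1 + α) ^ 2) := by gcongr
      _ = _ := by ring
  set M0 : ℝ := D0 * Real.exp 4 * 2 ^ (1 + α0) * Real.exp ((1 + α0) ^ 2) with hM0
  set M1 : ℝ := D1 * Real.exp 4 * 2 ^ (1 + α1) * Real.exp ((1 + α1) ^ 2) with hM1
  have hM00 : 0 < M0 := by positivity
  have hM10 : 0 < M1 := by positivity
  set M : ℝ := max (max M0 M1) 1 with hM
  have hM1' : 1 ≤ M := le_max_right _ _
  refine ⟨M, by linarith, ?_⟩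
  intro σ t hσ hσ' ht
  have ht0 : 0 < t := by linarith
  obtain ⟨D, k, hD, hgr⟩ := Pool.Agent.H448R2.GC.zeta_one_growth 1
  have hgr' : ∀ w : ℂ, -1 ≤ w.re → w.re ≤ 3 → ‖ZE w‖ ≤ D * (1 + |w.im|) ^ k := hgr
  set f : ℂ → ℂ := fun z => ZE z * cexp ((z - t * I) ^ 2) with hf
  have hfd : Differentiable ℂ f := by
    apply Differentiable.mul ZE_diff
    apply Differentiable.cexp
    fun_prop
  have key := Complex.HadamardThreeLines.norm_le_interp_of_mem_verticalClosedStrip' (f := f)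
    (z := ⟨σ, t⟩) (a := M * t ^ (1 + α0)) (b := M * t ^ (1 + α1)) (l := σ0) (u := σ1) h01
    ⟨hσ, hσ'⟩ hfd.diffContOnCl
    (by
      refine ⟨D * (2 * t) ^ (k : ℝ) * Real.exp ((k : ℝ) ^ 2) * Real.exp 4, ?_⟩
      rintro _ ⟨z, hz, rfl⟩
      have hz1 : σ0 ≤ z.re := hz.1
      have hz2 : z.re ≤ σ1 := hz.2
      have h3 := hgr' z (by linarith) (by linarith)
      have e3 : ‖cexp ((z - t * I) ^ 2)‖ = Real.exp (z.re ^ 2 - (z.im - t) ^ 2) := norm_exp_sq2 z t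
      show ‖ZE z * cexp ((z - t * I) ^ 2)‖ ≤ _
      rw [norm_mul, e3]
      set y := z.im - t with hy
      have e4 : z.im = t + y := by rw [hy]; ring
      have h4 : ‖ZE z‖ ≤ D * ((2 * t) ^ (k : ℝ) * (1 + |y|) ^ (k : ℝ)) := by
        refine h3.trans ?_
        apply mul_le_mul_of_nonneg_left _ hD.le
        rw [← Real.mul_rpow (by positivity) (by positivity), Real.rpow_natCast, e4]
        exact pow_le_pow_left₀ (by positivity) (one_add_le ht) k
      have h5 : Real.exp (z.re ^ 2 - y ^ 2) ≤ Real.exp 4 * Real.exp (-y ^ 2) := by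
        rw [← Real.exp_add]
        apply Real.exp_le_exp.2
        nlinarith
      have h6 := pow_gauss (Nat.cast_nonneg k) y
      calc ‖ZE z‖ * Real.exp (z.re ^ 2 - y ^ 2)
          ≤ (D * ((2 * t) ^ (k : ℝ) * (1 + |y|) ^ (k : ℝ))) * (Real.exp 4 * Real.exp (-y ^ 2)) := by
            gcongr
        _ = D * (2 * t) ^ (k : ℝ) * ((1 + |y|) ^ (k : ℝ) * Real.exp (-y ^ 2)) * Real.exp 4 := by ring
        _ ≤ D * (2 * t) ^ (k : ℝ) * Real.exp ((k : ℝ) ^ 2) * Real.exp 4 := by gcongr)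
    (by
      intro z hz
      rw [mem_preimage, mem_singleton_iff] at hz
      refine (line σ0 α0 D0 t hσ0 (by linarith) hα0 hD01 ht hD0 z hz).trans ?_
      apply mul_le_mul_of_nonneg_right _ (by positivity)
      exact (le_max_left _ _).trans (le_max_left _ _))
    (by
      intro z hz
      rw [mem_preimage, mem_singleton_iff] at hz
      refine (line σ1 α1 D1 t (by linarith) hσ1 hα1 hD11 ht hD1 z hz).trans ?_
      apply mul_le_mul_of_nonneg_right _ (by positivity)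
      exact (le_max_right _ _).trans (le_max_left _ _))
  set θ : ℝ := (σ - σ0) / (σ1 - σ0) with hθ
  have hθ0 : 0 ≤ θ := div_nonneg (by linarith) hs.le
  have hθ1 : θ ≤ 1 := by rw [hθ, div_le_one hs]; linarith
  have hkey : ‖f ⟨σ, t⟩‖ ≤ (M * t ^ (1 + α0)) ^ (1 - θ) * (M * t ^ (1 + α1)) ^ θ := key
  have e5 : (M * t ^ (1 + α0)) ^ (1 - θ) * (M * t ^ (1 + α1)) ^ θ =
      M * (t * t ^ ((1 - θ) * α0 + θ * α1)) := by
    rw [Real.mul_rpow (by positivity) (by positivity), Real.mul_rpow (by positivity) (by positivity),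
      ← Real.rpow_mul ht0.le, ← Real.rpow_mul ht0.le]
    have e6 : M ^ (1 - θ) * t ^ ((1 + α0) * (1 - θ)) * (M ^ θ * t ^ ((1 + α1) * θ)) =
        (M ^ (1 - θ) * M ^ θ) * (t ^ ((1 + α0) * (1 - θ)) * t ^ ((1 + α1) * θ)) := by ring
    rw [e6, ← Real.rpow_add (by positivity), ← Real.rpow_add ht0]
    have e7 : 1 - θ + θ = 1 := by ring
    have e8 : (1 + α0) * (1 - θ) + (1 + α1) * θ = 1 + ((1 - θ) * α0 + θ * α1) := by ring
    rw [e7, e8, Real.rpow_one, Real.rpow_add ht0, Real.rpow_one]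
  rw [e5] at hkey
  have hne : (⟨σ, t⟩ : ℂ) ≠ 1 := by
    intro e
    have := congrArg im e
    rw [one_im] at this
    simp only at this
    linarith
  have e9 : ‖f ⟨σ, t⟩‖ = ‖(⟨σ, t⟩ : ℂ) - 1‖ * ‖riemannZeta ⟨σ, t⟩‖ * Real.exp (σ ^ 2) := by
    simp only [hf]
    rw [norm_mul, ZE_eq hne, norm_mul, Complex.norm_exp]
    congr 2
    have : (⟨σ, t⟩ : ℂ) - t * I = (σ : ℂ) := by
      apply Complex.ext <;> simp
    rw [this]
    have : ((σ : ℂ) ^ 2) = ((σ ^ 2 : ℝ) : ℂ) := by push_cast; ring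
    rw [this, ofReal_re]
  rw [e9] at hkey
  have h10 : t ≤ ‖(⟨σ, t⟩ : ℂ) - 1‖ := by
    have : |((⟨σ, t⟩ : ℂ) - 1).im| ≤ ‖(⟨σ, t⟩ : ℂ) - 1‖ := abs_im_le_norm _
    rw [sub_im, one_im, sub_zero] at this
    exact (le_abs_self _).trans this
  have h11 : 1 ≤ Real.exp (σ ^ 2) := Real.one_le_exp (sq_nonneg _)
  have h12 : t * ‖riemannZeta ⟨σ, t⟩‖ ≤ t * (M * t ^ ((1 - θ) * α0 + θ * α1)) := by
    calc t * ‖riemannZeta ⟨σ, t⟩‖ = t * ‖riemannZeta ⟨σ, t⟩‖ * 1 := by ring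
      _ ≤ ‖(⟨σ, t⟩ : ℂ) - 1‖ * ‖riemannZeta ⟨σ, t⟩‖ * Real.exp (σ ^ 2) := by gcongr
      _ ≤ _ := hkey
      _ = _ := by ring
  exact le_of_mul_le_mul_left h12 ht0

end Pool.Agent.L5helper6.DZ
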