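import Pool.Agent.L5helper6.DZ.Abs
import Pool.Agent.H353R6.E9

/-!
# The multipliers of `ζ^(k)(1 - s)` and of the derivatives of Riemann's xi function
-/

set_option autoImplicit false

open Complex Filter Topology Set Metric

namespace Pool.Agent.L5helper6.DZ

/-! ### Generalities -/

lemma iter_eq {f A w F : ℂ → ℂ} {U : Set ℂ} (hU : IsOpen U)
    (hA : ∀ s ∈ U, HasDerivAt A (w s * A s) s) (hF : DifferentiableOn ℂ F U)
    (hw : DifferentiableOn ℂ w U) (h0 : ∀ s ∈ U, f s = A s * F s) (k : ℕ) :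
    ∀ s ∈ U, iteratedDeriv k f s = A s * sq w F k s := by
  induction k with
  | zero =>
    intro s hs
    rw [iteratedDeriv_zero]
    exact h0 s hs
  | succ k ih =>
    intro s hs
    rw [iteratedDeriv_succ]
    have h1 : iteratedDeriv k f =ᶠ[𝓝 s] fun z => A z * sq w F k z := by
      filter_upwards [hU.mem_nhds hs] with z hz using ih z hz
    rw [h1.deriv_eq]
    have h2 : HasDerivAt (sq w F k) (deriv (sq w F k) s) s :=
      ((sq_diff hU hF hw k s hs).differentiableAt (hU.mem_nhds hs)).hasDerivAt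
    have h3 : HasDerivAt (fun z => A z * sq w F k z) (w s * A s * sq w F k s +
        A s * deriv (sq w F k) s) s := (hA s hs).mul h2
    rw [h3.deriv]
    simp only [sq]
    ring

lemma iteratedDeriv_conj {f : ℂ → ℂ} (hf : ∀ s, f ((starRingEnd ℂ) s) = (starRingEnd ℂ) (f s)) (k : ℕ) :
    ∀ s, iteratedDeriv k f ((starRingEnd ℂ) s) = (starRingEnd ℂ) (iteratedDeriv k f s) := by
  induction k with
  | zero =>
    intro s
    rw [iteratedDeriv_zero]
    exact hf s
  | succ k ih =>
    intro s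
    rw [iteratedDeriv_succ]
    have h1 : iteratedDeriv k f = (starRingEnd ℂ) ∘ iteratedDeriv k f ∘ (starRingEnd ℂ) := by
      funext z
      simp only [Function.comp_apply]
      rw [ih z, Complex.conj_conj]
    conv_lhs => rw [h1]
    rw [deriv_conj_conj]
    simp only [Function.comp_apply, Complex.conj_conj]

lemma dig_Lg {s : ℂ} (hs : 1 / 4 ≤ s.re) : ‖logDeriv Gamma s - Lg s‖ ≤ 12 := by
  have h1 := H353.E.dig_aux hs
  have h2 : ‖s + 2‖ ≤ ‖s‖ + 2 := by
    refine (norm_add_le _ _).trans ?_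
    simp
  have h3 : 2 ≤ ‖s + 2‖ := by
    have h := re_le_norm (s + 2)
    simp only [add_re, re_ofNat] at h
    linarith
  have h4 : ‖s‖ ≤ ‖s + 2‖ := by
    rw [Complex.norm_eq_sqrt_sq_add_sq, Complex.norm_eq_sqrt_sq_add_sq]
    apply Real.sqrt_le_sqrt
    simp only [add_re, re_ofNat, add_im, im_ofNat, add_zero]
    nlinarith
  have h5 : ‖log (s + 2) - Lg s‖ ≤ 1 + Real.pi := by
    refine (norm_le_abs_re_add_abs_im _).trans ?_
    rw [sub_re, sub_im, ofReal_re, ofReal_im, sub_zero, Complex.log_re, Complex.log_im]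
    refine add_le_add ?_ (abs_arg_le_pi _)
    unfold Lg
    rw [abs_sub_comm, abs_of_nonneg (by
      rw [sub_nonneg]
      exact Real.log_le_log (by linarith) h2), ← Real.log_div (by positivity) (by linarith),
      Real.log_le_iff_le_exp (by positivity)]
    have h6 : (‖s‖ + 2) / ‖s + 2‖ ≤ 2 := by
      rw [div_le_iff₀ (by linarith)]
      linarith
    have := Real.add_one_le_exp (1 : ℝ)
    linarith
  have e : logDeriv Gamma s - Lg s = (logDeriv Gamma s - log (s + 2)) + (log (s + 2) - Lg s) := by ring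
  rw [e]
  refine (norm_add_le _ _).trans ?_
  have := Real.pi_lt_d2
  linarith

lemma tan_bd {z : ℂ} (h : 3 / 4 ≤ z.im) : cos z ≠ 0 ∧ ‖sin z / cos z‖ ≤ 2 := by
  have n1 : ‖cexp (z * I)‖ = Real.exp (-z.im) := by
    rw [Complex.norm_exp]
    simp
  have n2 : ‖cexp (-z * I)‖ = Real.exp z.im := by
    rw [Complex.norm_exp]
    simp
  have hexp : 3 * Real.exp (-z.im) ≤ Real.exp z.im := by
    have h1 := Real.quadratic_le_exp_of_nonneg (x := 2 * z.im) (by linarith)
    have h2 : 3 ≤ Real.exp (2 * z.im) := by nlinarith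
    calc 3 * Real.exp (-z.im) ≤ Real.exp (2 * z.im) * Real.exp (-z.im) := by gcongr
      _ = Real.exp z.im := by rw [← Real.exp_add]; ring_nf
  have hs : ‖sin z‖ ≤ (Real.exp z.im + Real.exp (-z.im)) / 2 := by
    unfold Complex.sin
    rw [norm_div, norm_mul, Complex.norm_I, mul_one]
    have : ‖cexp (-z * I) - cexp (z * I)‖ ≤ Real.exp z.im + Real.exp (-z.im) := by
      refine (norm_sub_le _ _).trans ?_
      rw [n1, n2]
    have h2 : ‖(2 : ℂ)‖ = 2 := by simp
    rw [h2]
    linarith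
  have hc : (Real.exp z.im - Real.exp (-z.im)) / 2 ≤ ‖cos z‖ := by
    unfold Complex.cos
    rw [norm_div]
    have : Real.exp z.im - Real.exp (-z.im) ≤ ‖cexp (z * I) + cexp (-z * I)‖ := by
      rw [← n1, ← n2]
      have := norm_sub_le (cexp (z * I) + cexp (-z * I)) (cexp (z * I))
      rw [add_sub_cancel_left] at this
      linarith
    have h2 : ‖(2 : ℂ)‖ = 2 := by simp
    rw [h2]
    linarith
  have hpos : 0 < ‖cos z‖ := by
    have := Real.exp_pos (-z.im)
    linarith
  refine ⟨norm_pos_iff.1 hpos, ?_⟩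
  rw [norm_div, div_le_iff₀ hpos]
  linarith

lemma Gamma_ne {s : ℂ} (hs : 0 < s.re) : Gamma s ≠ 0 := Gamma_ne_zero_of_re_pos hs

lemma hasDerivAt_Gamma {s : ℂ} (hs : 0 < s.re) : HasDerivAt Gamma (logDeriv Gamma s * Gamma s) s := by
  have h1 : DifferentiableAt ℂ Gamma s := by
    apply differentiableAt_Gamma
    intro m h
    rw [h] at hs
    simp at hs
    linarith [(Nat.cast_nonneg m : (0 : ℝ) ≤ m)]
  refine h1.hasDerivAt.congr_deriv ?_
  rw [logDeriv_apply]
  have := Gamma_ne hs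
  field_simp

/-! ### The derivatives of zeta on the left -/

/-- the factor of the functional equation `ζ(1 - s) = A1(s) ζ(s)` -/
noncomputable def A1 (s : ℂ) : ℂ := 2 * (2 * Real.pi) ^ (-s) * Gamma s * cos (Real.pi * s / 2)

/-- its logarithmic derivative -/
noncomputable def w1 (s : ℂ) : ℂ :=
  -Real.log (2 * Real.pi) + logDeriv Gamma s - Real.pi / 2 * (sin (Real.pi * s / 2) / cos (Real.pi * s / 2))

def U1 : Set ℂ := {s : ℂ | 1 / 4 < s.re ∧ 1 / 2 < s.im}

lemma U1_open : IsOpen U1 :=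
  (isOpen_lt continuous_const Complex.continuous_re).inter
    (isOpen_lt continuous_const Complex.continuous_im)

lemma im_half {s : ℂ} : (Real.pi * s / 2 : ℂ).im = Real.pi / 2 * s.im := by
  have : (Real.pi * s / 2 : ℂ) = ((Real.pi / 2 : ℝ) : ℂ) * s := by push_cast; ring
  rw [this, im_ofReal_mul]

lemma U1_tan {s : ℂ} (hs : s ∈ U1) : 3 / 4 ≤ (Real.pi * s / 2 : ℂ).im := by
  rw [im_half]
  have h1 := Real.pi_gt_d2
  have h2 : 1 / 2 < s.im := hs.2
  nlinarith

lemma A1_deriv {s : ℂ} (hs : s ∈ U1) : HasDerivAt A1 (w1 s * A1 s) s := by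
  have hre : 0 < s.re := by linarith [hs.1]
  have hcos := (tan_bd (U1_tan hs)).1
  have hpi : (2 * Real.pi : ℂ) ≠ 0 := by
    have := Real.pi_ne_zero
    simp [this]
  have d1 : HasDerivAt (fun z : ℂ => (2 * Real.pi : ℂ) ^ (-z))
      ((2 * Real.pi : ℂ) ^ (-s) * log (2 * Real.pi : ℂ) * (-1)) s :=
    (hasDerivAt_neg s).const_cpow (Or.inl hpi)
  have d2 := hasDerivAt_Gamma hre
  have d3 : HasDerivAt (fun z : ℂ => cos (Real.pi * z / 2))
      (-sin (Real.pi * s / 2) * (Real.pi * 1 / 2)) s :=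
    (((hasDerivAt_id s).const_mul (Real.pi : ℂ)).div_const 2).ccos
  have d4 := (((d1.const_mul (2 : ℂ)).mul d2).mul d3)
  have e : A1 = fun z => 2 * (2 * Real.pi : ℂ) ^ (-z) * Gamma z * cos (Real.pi * z / 2) := rfl
  rw [e]
  refine d4.congr_deriv ?_
  have hlog : log (2 * Real.pi : ℂ) = ((Real.log (2 * Real.pi) : ℝ) : ℂ) := by
    rw [Complex.ofReal_log (by positivity)]
    push_cast
    rfl
  unfold w1
  rw [hlog]
  simp only [Pi.mul_apply]
  field_simp
  ring

lemma A1_ne {s : ℂ} (hs : s ∈ U1) : A1 s ≠ 0 := by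
  have hre : 0 < s.re := by linarith [hs.1]
  have hpi : (2 * Real.pi : ℂ) ≠ 0 := by
    have := Real.pi_ne_zero
    simp [this]
  unfold A1
  refine mul_ne_zero (mul_ne_zero (mul_ne_zero two_ne_zero ?_) (Gamma_ne hre)) (tan_bd (U1_tan hs)).1
  rw [Ne, cpow_eq_zero_iff]
  exact fun h => hpi h.1

lemma w1_mul : Mul 1 (1 / 4) U1 w1 where
  ha := one_pos
  isOpen := U1_open
  diff := by
    intro s hs
    have hre : 0 < s.re := by linarith [hs.1]
    have hcos := (tan_bd (U1_tan hs)).1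
    apply DifferentiableAt.differentiableWithinAt
    unfold w1
    apply DifferentiableAt.sub
    · exact (differentiableAt_const _).add (H353.E.hasDerivAt_dig hre).differentiableAt
    · apply DifferentiableAt.const_mul
      have d1 : DifferentiableAt ℂ (fun y : ℂ => sin (Real.pi * y / 2)) s := by fun_prop
      have d2 : DifferentiableAt ℂ (fun y : ℂ => cos (Real.pi * y / 2)) s := by fun_prop
      exact d1.fun_div d2 hcos
  bd := by
    refine ⟨Real.log (2 * Real.pi) + 12 + Real.pi, fun s hs => ?_⟩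
    have h1 := dig_Lg (s := s) (by linarith [hs.1])
    have h2 := (tan_bd (U1_tan hs)).2
    have hl : 0 ≤ Real.log (2 * Real.pi) := Real.log_nonneg (by linarith [Real.pi_gt_three])
    unfold w1
    have e : -(Real.log (2 * Real.pi) : ℂ) + logDeriv Gamma s -
        Real.pi / 2 * (sin (Real.pi * s / 2) / cos (Real.pi * s / 2)) - ((1 : ℝ) : ℂ) * Lg s =
        -(Real.log (2 * Real.pi) : ℂ) + (logDeriv Gamma s - Lg s) -
        Real.pi / 2 * (sin (Real.pi * s / 2) / cos (Real.pi * s / 2)) := by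
      push_cast
      ring
    rw [e]
    refine (norm_sub_le _ _).trans (add_le_add ((norm_add_le _ _).trans (add_le_add ?_ h1)) ?_)
    · rw [norm_neg, Complex.norm_real, Real.norm_of_nonneg hl]
    · rw [norm_mul]
      have h3 : ‖(Real.pi / 2 : ℂ)‖ = Real.pi / 2 := by
        rw [norm_div, Complex.norm_real, Real.norm_of_nonneg Real.pi_pos.le]
        simp
      rw [h3]
      nlinarith [Real.pi_pos]
  sub := fun s h1 h2 => ⟨h1, by linarith⟩
  one := by
    intro h
    have := h.2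
    rw [one_im] at this
    norm_num at this

/-- the derivatives of `ζ(1 - s)` -/
lemma iter1 (k : ℕ) {s : ℂ} (hs : s ∈ U1) :
    (-1 : ℂ) ^ k * iteratedDeriv k riemannZeta (1 - s) = A1 s * sq w1 riemannZeta k s := by
  have h1 := iter_eq (f := fun s => riemannZeta (1 - s)) U1_open (fun s hs => A1_deriv hs)
    (w1_mul.zd le_rfl) w1_mul.diff (fun s hs => by
      have hre : 0 < s.re := by linarith [hs.1]
      show riemannZeta (1 - s) = A1 s * riemannZeta s
      rw [riemannZeta_one_sub]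
      · rfl
      · intro n h
        rw [h] at hre
        simp at hre
        linarith [(Nat.cast_nonneg n : (0 : ℝ) ≤ n)]
      · intro h
        exact w1_mul.one (h ▸ hs)) k s hs
  rw [← h1, iteratedDeriv_comp_const_sub]
  simp only [smul_eq_mul]

lemma zero1 (k : ℕ) {s : ℂ} (hs : s ∈ U1) :
    iteratedDeriv k riemannZeta (1 - s) = 0 ↔ sq w1 riemannZeta k s = 0 := by
  have h1 := iter1 k hs
  have h2 := A1_ne hs
  have h3 : (-1 : ℂ) ^ k ≠ 0 := pow_ne_zero _ (by norm_num)
  constructor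
  · intro h
    rw [h, mul_zero] at h1
    exact (mul_eq_zero.1 h1.symm).resolve_left h2
  · intro h
    rw [h, mul_zero] at h1
    exact (mul_eq_zero.1 h1).resolve_left h3

/-! ### Riemann's xi function -/

/-- Riemann's function `ξ(s) = s (s - 1) π^(-s/2) Γ(s/2) ζ(s) / 2` -/
noncomputable def xi (s : ℂ) : ℂ := (s * (s - 1) * completedRiemannZeta₀ s + 1) / 2

/-- the factor -/
noncomputable def A2 (s : ℂ) : ℂ := s * (s - 1) / 2 * Gammaℝ s

/-- its logarithmic derivative -/
noncomputable def w2 (s : ℂ) : ℂ :=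
  1 / s + 1 / (s - 1) - Real.log Real.pi / 2 + 1 / 2 * logDeriv Gamma (s / 2)

def U2 : Set ℂ := {s : ℂ | 1 / 2 < s.re ∧ 1 / 2 < s.im} ∪ {s : ℂ | 9 / 8 < s.re}

lemma U2_open : IsOpen U2 :=
  ((isOpen_lt continuous_const Complex.continuous_re).inter
    (isOpen_lt continuous_const Complex.continuous_im)).union
    (isOpen_lt continuous_const Complex.continuous_re)

lemma U2_re {s : ℂ} (hs : s ∈ U2) : 1 / 2 < s.re := by
  rcases hs with h | h
  · exact h.1
  · have : 9 / 8 < s.re := h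
    linarith

lemma U2_one {s : ℂ} (hs : s ∈ U2) : 1 / 8 ≤ ‖s - 1‖ := by
  rcases hs with h | h
  · have h1 : |(s - 1).im| ≤ ‖s - 1‖ := abs_im_le_norm _
    rw [sub_im, one_im, sub_zero] at h1
    have := le_abs_self s.im
    linarith [h.2]
  · have h0 : 9 / 8 < s.re := h
    have h1 : |(s - 1).re| ≤ ‖s - 1‖ := abs_re_le_norm _
    rw [sub_re, one_re] at h1
    have := le_abs_self (s.re - 1)
    linarith

lemma U2_ne {s : ℂ} (hs : s ∈ U2) : s ≠ 0 ∧ s - 1 ≠ 0 := by
  constructor
  · intro h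
    have := U2_re hs
    rw [h, zero_re] at this
    norm_num at this
  · rw [← norm_pos_iff]
    have := U2_one hs
    linarith

lemma xi_eq {s : ℂ} (h0 : s ≠ 0) (h1 : s ≠ 1) :
    xi s = s * (s - 1) / 2 * (Gammaℝ s * riemannZeta s) ∨ Gammaℝ s = 0 := by
  by_cases hG : Gammaℝ s = 0
  · exact Or.inr hG
  left
  have h2 : s - 1 ≠ 0 := sub_ne_zero.2 h1
  have h3 : 1 - s ≠ 0 := fun h => h2 (by rw [← neg_sub, h, neg_zero])
  rw [riemannZeta_def_of_ne_zero h0, mul_div_cancel₀ _ hG, completedRiemannZeta_eq]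
  unfold xi
  field_simp
  ring

lemma A2_deriv {s : ℂ} (hs : s ∈ U2) : HasDerivAt A2 (w2 s * A2 s) s := by
  obtain ⟨h0, h1⟩ := U2_ne hs
  have hre : 0 < (s / 2).re := by
    have := U2_re hs
    have e : (s / 2).re = s.re / 2 := by simp
    rw [e]
    linarith
  have hpi : (Real.pi : ℂ) ≠ 0 := ofReal_ne_zero.mpr Real.pi_ne_zero
  have d1 : HasDerivAt (fun z : ℂ => (Real.pi : ℂ) ^ (-z / 2))
      ((Real.pi : ℂ) ^ (-s / 2) * log (Real.pi : ℂ) * (-1 / 2)) s := by
    have h1 : HasDerivAt (fun z : ℂ => -z / 2) (-1 / 2) s := by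
      simpa using ((hasDerivAt_id s).neg).div_const 2
    exact h1.const_cpow (Or.inl hpi)
  have d2 : HasDerivAt (fun z : ℂ => Gamma (z / 2)) (logDeriv Gamma (s / 2) * Gamma (s / 2) * (1 / 2)) s := by
    have h1 : HasDerivAt (fun z : ℂ => z / 2) (1 / 2) s := by
      simpa using (hasDerivAt_id s).div_const 2
    exact HasDerivAt.comp s (hasDerivAt_Gamma hre) h1
  have d3 : HasDerivAt (fun z : ℂ => z * (z - 1) / 2) ((1 * (s - 1) + s * 1) / 2) s :=
    (((hasDerivAt_id s).mul ((hasDerivAt_id s).sub_const 1)).div_const 2)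
  have d4 := d3.mul (d1.mul d2)
  have e : A2 = fun z : ℂ => z * (z - 1) / 2 * ((Real.pi : ℂ) ^ (-z / 2) * Gamma (z / 2)) := by
    funext z
    unfold A2
    rw [Gammaℝ_def]
  rw [e]
  refine d4.congr_deriv ?_
  unfold w2
  rw [← Complex.ofReal_log Real.pi_pos.le]
  simp only [Pi.mul_apply]
  field_simp
  ring

lemma A2_ne {s : ℂ} (hs : s ∈ U2) : A2 s ≠ 0 := by
  obtain ⟨h0, h1⟩ := U2_ne hs
  unfold A2
  refine mul_ne_zero (div_ne_zero (mul_ne_zero h0 h1) two_ne_zero) ?_
  apply Gammaℝ_ne_zero_of_re_pos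
  linarith [U2_re hs]

lemma half_Lg (s : ℂ) : |Lg (s / 2) - Lg s| ≤ 1 := by
  unfold Lg
  have h1 : ‖s / 2‖ = ‖s‖ / 2 := by
    rw [norm_div]
    simp
  have h2 := norm_nonneg s
  rw [h1, abs_sub_comm, abs_of_nonneg (by
    rw [sub_nonneg]
    exact Real.log_le_log (by linarith) (by linarith)), ← Real.log_div (by positivity) (by positivity),
    Real.log_le_iff_le_exp (by positivity)]
  have h3 : (‖s‖ + 2) / (‖s‖ / 2 + 2) ≤ 2 := by
    rw [div_le_iff₀ (by positivity)]
    linarith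
  have := Real.add_one_le_exp (1 : ℝ)
  linarith

lemma w2_mul : Mul (1 / 2) (1 / 2) U2 w2 where
  ha := by norm_num
  isOpen := U2_open
  diff := by
    intro s hs
    obtain ⟨h0, h1⟩ := U2_ne hs
    have hre : 0 < (s / 2).re := by
      have := U2_re hs
      have e : (s / 2).re = s.re / 2 := by simp
      rw [e]
      linarith
    apply DifferentiableAt.differentiableWithinAt
    have d1 : DifferentiableAt ℂ (fun z : ℂ => logDeriv Gamma (z / 2)) s :=
      DifferentiableAt.comp s (H353.E.hasDerivAt_dig hre).differentiableAt (by fun_prop)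
    have d2 : DifferentiableAt ℂ (fun z : ℂ => 1 / z + 1 / (z - 1) - Real.log Real.pi / 2) s := by
      apply DifferentiableAt.sub_const
      exact ((differentiableAt_const _).div differentiableAt_id h0).add
        ((differentiableAt_const _).div (differentiableAt_id.sub_const _) h1)
    exact d2.add (d1.const_mul _)
  bd := by
    refine ⟨2 + 8 + |Real.log Real.pi| / 2 + 13 / 2, fun s hs => ?_⟩
    obtain ⟨h0, h1⟩ := U2_ne hs
    have hre : 1 / 4 ≤ (s / 2).re := by
      have := U2_re hs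
      have e : (s / 2).re = s.re / 2 := by simp
      rw [e]
      linarith
    have g1 := dig_Lg hre
    have g2 := half_Lg s
    have e : w2 s - ((1 / 2 : ℝ) : ℂ) * Lg s = 1 / s + 1 / (s - 1) - ((Real.log Real.pi / 2 : ℝ) : ℂ) +
        1 / 2 * ((logDeriv Gamma (s / 2) - Lg (s / 2)) + ((Lg (s / 2) - Lg s : ℝ) : ℂ)) := by
      unfold w2
      push_cast
      ring
    rw [e]
    refine (norm_add_le _ _).trans (add_le_add ((norm_sub_le _ _).trans (add_le_add
      ((norm_add_le _ _).trans (add_le_add ?_ ?_)) ?_)) ?_)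
    · rw [norm_div, norm_one, div_le_iff₀ (norm_pos_iff.2 h0)]
      have := (le_abs_self s.re).trans (abs_re_le_norm s)
      linarith [U2_re hs]
    · rw [norm_div, norm_one, div_le_iff₀ (norm_pos_iff.2 h1)]
      linarith [U2_one hs]
    · rw [Complex.norm_real, Real.norm_eq_abs, abs_div, abs_two]
    · rw [norm_mul]
      have h3 : ‖(1 / 2 : ℂ)‖ = 1 / 2 := by simp
      rw [h3]
      have h4 : ‖(logDeriv Gamma (s / 2) - Lg (s / 2)) + ((Lg (s / 2) - Lg s : ℝ) : ℂ)‖ ≤ 13 := by
        refine (norm_add_le _ _).trans ?_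
        rw [Complex.norm_real, Real.norm_eq_abs]
        linarith
      linarith
  sub := fun s h1 h2 => Or.inl ⟨h1, by linarith⟩
  one := by
    intro h
    have := U2_one h
    rw [sub_self, norm_zero] at this
    norm_num at this

lemma iter2 (k : ℕ) {s : ℂ} (hs : s ∈ U2) :
    iteratedDeriv k xi s = A2 s * sq w2 riemannZeta k s := by
  refine iter_eq (f := xi) U2_open (fun s hs => A2_deriv hs)
    (w2_mul.zd le_rfl) w2_mul.diff (fun s hs => ?_) k s hs
  obtain ⟨h0, h1⟩ := U2_ne hs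
  have hG : Gammaℝ s ≠ 0 := by
    apply Gammaℝ_ne_zero_of_re_pos
    linarith [U2_re hs]
  rcases xi_eq h0 (sub_ne_zero.1 h1) with h | h
  · rw [h]
    unfold A2
    ring
  · exact absurd h hG

lemma zero2 (k : ℕ) {s : ℂ} (hs : s ∈ U2) :
    iteratedDeriv k xi s = 0 ↔ sq w2 riemannZeta k s = 0 := by
  rw [iter2 k hs, mul_eq_zero]
  simp [A2_ne hs]

end Pool.Agent.L5helper6.DZ
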