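import Pool.Agent.L5helper6.DZ.Growth

/-!
# Zeros of zeta and of the derived sequence near the line of the last zeros
-/

set_option autoImplicit false

open Complex Filter Topology Set Metric
open Pool.Agent.H296R2.LE (ratio_upper ratio_lower exists_log ext_ball three_circles)
open Pool.Agent.TH809.MZ (zeta_bounds ZE ZE_eq one_add_le pow_gauss)

namespace Pool.Agent.L5helper6.DZ

/-- bound with slope `κ` to the left of `b` -/
def Gr (κ b : ℝ) : Prop := ∃ r1 : ℝ, 0 < r1 ∧ ∀ ε : ℝ, 0 < ε → ∃ T0 : ℝ, ∀ s : ℂ, b - r1 ≤ s.re →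
  s.re ≤ 2 → T0 ≤ s.im → ‖riemannZeta s‖ ≤ Real.exp ((κ * max (b - s.re) 0 + ε) * Lg s)

lemma norm_zeta_conj (x t : ℝ) : ‖riemannZeta ⟨x, -t⟩‖ = ‖riemannZeta ⟨x, t⟩‖ := by
  have e : (⟨x, -t⟩ : ℂ) = (starRingEnd ℂ) ⟨x, t⟩ := by
    apply Complex.ext <;> simp
  rw [e, riemannZeta_conj, norm_conj]

theorem Gr_of {b σ0 μ0 : ℝ} (hσ0 : -1 ≤ σ0) (hσb : σ0 < b) (hb0 : 0 ≤ b) (hb1 : b ≤ 1)
    (hμ : 0 ≤ μ0) (h : ∀ η : ℝ, 0 < η → ∃ C : ℝ, ∀ t : ℝ, 1 ≤ |t| →
      ‖riemannZeta ⟨σ0, t⟩‖ ≤ C * (1 + |t|) ^ (μ0 + η)) (hf : Free b) : Gr (μ0 / (b - σ0)) b := by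
  refine ⟨b - σ0, by linarith, fun ε hε => ?_⟩
  set κ := μ0 / (b - σ0) with hκ
  have hκ0 : 0 ≤ κ := div_nonneg hμ (by linarith)
  set η : ℝ := min (ε / (2 * (κ + 2))) (1 / 2) with hη
  have hη0 : 0 < η := lt_min (by positivity) (by norm_num)
  have hη1 : (κ + 2) * η ≤ ε / 2 := by
    calc (κ + 2) * η ≤ (κ + 2) * (ε / (2 * (κ + 2))) := by
          gcongr
          exact min_le_left _ _
      _ = ε / 2 := by field_simp
  have hη2 : η ≤ 1 / 2 := min_le_right _ _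
  obtain ⟨C0, hC0⟩ := h η hη0
  obtain ⟨T1, hT1⟩ := low hb0 hb1 hf hη0
  have h1 : ∀ t : ℝ, max T1 1 ≤ |t| → ‖riemannZeta ⟨b + η, t⟩‖ ≤ 5 ^ η * (1 + |t|) ^ η := by
    intro t ht
    have e : ‖riemannZeta ⟨b + η, t⟩‖ = ‖riemannZeta ⟨b + η, |t|⟩‖ := by
      rcases abs_cases t with h2 | h2
      · rw [h2.1]
      · rw [h2.1, norm_zeta_conj]
    rw [e]
    refine (hT1 ⟨b + η, |t|⟩ le_rfl (by show b + η ≤ 2; linarith) ((le_max_left _ _).trans ht)).2.trans ?_
    have h3 : ‖(⟨b + η, |t|⟩ : ℂ)‖ + 2 ≤ 5 * (1 + |t|) := by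
      have h4 := norm_le_abs_re_add_abs_im (⟨b + η, |t|⟩ : ℂ)
      simp only [abs_abs] at h4
      rw [abs_of_nonneg (by linarith : 0 ≤ b + η)] at h4
      have := abs_nonneg t
      linarith
    rw [← Real.mul_rpow (by norm_num) (by positivity)]
    calc Real.exp (η * Lg ⟨b + η, |t|⟩) = (‖(⟨b + η, |t|⟩ : ℂ)‖ + 2) ^ η := by
          rw [Real.rpow_def_of_pos (by positivity), mul_comm]
          rfl
      _ ≤ _ := Real.rpow_le_rpow (by positivity) h3 hη0.le
  obtain ⟨C, hC, H⟩ := interp (σ0 := σ0) (σ1 := b + η) (α0 := μ0 + η) (α1 := η) (by linarith) hσ0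
    (by linarith) (by linarith) hη0.le hC0 h1
  refine ⟨max (max T1 1) (Real.exp (2 * |Real.log C| / ε)), fun s g1 g2 g3 => ?_⟩
  have k1 : T1 ≤ s.im := ((le_max_left _ _).trans (le_max_left _ _)).trans g3
  have k2 : 1 ≤ s.im := ((le_max_right _ _).trans (le_max_left _ _)).trans g3
  have k3 := Lg_ge ((le_max_right _ _).trans g3)
  rw [div_le_iff₀ hε] at k3
  have hL := Lg_pos s
  have hmax : 0 ≤ max (b - s.re) 0 := le_max_right _ _
  by_cases hs : b + η ≤ s.re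
  · refine (hT1 s hs g2 k1).2.trans ?_
    apply Real.exp_le_exp.2
    apply mul_le_mul_of_nonneg_right _ hL.le
    have : 0 ≤ κ * max (b - s.re) 0 := by positivity
    nlinarith
  · rw [not_le] at hs
    have g4 := H s.re s.im (by linarith) hs.le k2
    have hD : 0 < b + η - σ0 := by linarith
    have hbσ : 0 < b - σ0 := by linarith
    set θ := (s.re - σ0) / (b + η - σ0) with hθ
    have hθ0 : 0 ≤ θ := div_nonneg (by linarith) hD.le
    have hθ1 : θ ≤ 1 := by rw [hθ, div_le_one hD]; linarith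
    have e1 : 1 - θ = (b + η - s.re) / (b + η - σ0) := by
      rw [hθ]
      field_simp
      ring
    have e2 : (1 - θ) * μ0 ≤ κ * (max (b - s.re) 0 + η) := by
      rw [e1, hκ]
      have h5 : b + η - s.re ≤ max (b - s.re) 0 + η := by
        have := le_max_left (b - s.re) 0
        linarith
      calc (b + η - s.re) / (b + η - σ0) * μ0 ≤ (max (b - s.re) 0 + η) / (b - σ0) * μ0 := by
            gcongr
            linarith
        _ = _ := by ring
    have e3 : (1 - θ) * (μ0 + η) + θ * η ≤ κ * max (b - s.re) 0 + ε / 2 := by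
      calc (1 - θ) * (μ0 + η) + θ * η = (1 - θ) * μ0 + η := by ring
        _ ≤ κ * (max (b - s.re) 0 + η) + η := by linarith
        _ = κ * max (b - s.re) 0 + (κ + 1) * η := by ring
        _ ≤ _ := by nlinarith
    have e4 : 0 ≤ (1 - θ) * (μ0 + η) + θ * η := by
      have : 0 ≤ 1 - θ := by linarith
      positivity
    have e5 : s.im ^ ((1 - θ) * (μ0 + η) + θ * η) ≤ Real.exp ((κ * max (b - s.re) 0 + ε / 2) * Lg s) := by
      calc s.im ^ ((1 - θ) * (μ0 + η) + θ * η) ≤ (‖s‖ + 2) ^ ((1 - θ) * (μ0 + η) + θ * η) := by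
            apply Real.rpow_le_rpow (by linarith) _ e4
            have := (le_abs_self s.im).trans (abs_im_le_norm s)
            linarith
        _ ≤ (‖s‖ + 2) ^ (κ * max (b - s.re) 0 + ε / 2) := by
            apply Real.rpow_le_rpow_of_exponent_le _ e3
            linarith [norm_nonneg s]
        _ = _ := by
            rw [Real.rpow_def_of_pos (by positivity), mul_comm]
            rfl
    have e6 : C ≤ Real.exp (ε / 2 * Lg s) := by
      rw [← Real.log_le_iff_le_exp hC]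
      have := le_abs_self (Real.log C)
      linarith
    calc ‖riemannZeta s‖ ≤ C * s.im ^ ((1 - θ) * (μ0 + η) + θ * η) := g4
      _ ≤ Real.exp (ε / 2 * Lg s) * Real.exp ((κ * max (b - s.re) 0 + ε / 2) * Lg s) := by gcongr
      _ = _ := by
        rw [← Real.exp_add]
        ring_nf

/-- A multiplier: `w` is holomorphic on `U` and `w(s) = a log |s| + O(1)`. -/
structure Mul (a u : ℝ) (U : Set ℂ) (w : ℂ → ℂ) : Prop where
  ha : 0 < a
  isOpen : IsOpen U
  diff : DifferentiableOn ℂ w U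
  bd : ∃ C : ℝ, ∀ s ∈ U, ‖w s - a * Lg s‖ ≤ C
  sub : ∀ s : ℂ, u < s.re → 1 < s.im → s ∈ U
  one : (1 : ℂ) ∉ U

variable {a u : ℝ} {U : Set ℂ} {w : ℂ → ℂ}

lemma Mul.near (hM : Mul a u U w) {ε : ℝ} (hε : 0 < ε) : ∃ M : ℝ, ∀ c : ℂ, M ≤ Lg c → ∀ z ∈ U,
    ‖z - c‖ ≤ 2 → ‖w z - a * Lg c‖ ≤ ε * Lg c := by
  obtain ⟨C, hC⟩ := hM.bd
  refine ⟨(C + a) / ε, fun c hc z hz hzc => ?_⟩
  rw [div_le_iff₀ hε] at hc
  have h1 := hC z hz
  have h2 := Lg_near hzc
  have e : w z - a * Lg c = (w z - a * Lg z) + ((a * (Lg z - Lg c) : ℝ) : ℂ) := by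
    push_cast
    ring
  rw [e]
  refine (norm_add_le _ _).trans ?_
  have h3 : ‖((a * (Lg z - Lg c) : ℝ) : ℂ)‖ ≤ a := by
    rw [Complex.norm_real, Real.norm_eq_abs, abs_mul, abs_of_pos hM.ha]
    calc a * |Lg z - Lg c| ≤ a * 1 := mul_le_mul_of_nonneg_left h2 hM.ha.le
      _ = a := mul_one a
  linarith

lemma Mul.zd (hM : Mul a u U w) {V : Set ℂ} (hV : V ⊆ U) : DifferentiableOn ℂ riemannZeta V :=
  zeta_diff fun h => hM.one (hV h)

lemma ball_asym (hM : Mul a u U w) (k : ℕ) {r' r : ℝ} (h0 : 0 < r') (h1 : r' < r) (h2 : r ≤ 2)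
    {ε : ℝ} (hε : 0 < ε) (hε1 : ε ≤ 1 / 2) : ∃ ε1 M : ℝ, 0 < ε1 ∧ ∀ c : ℂ, M ≤ Lg c →
      ball c r ⊆ U → (∀ z ∈ ball c r, riemannZeta z ≠ 0 ∧
        ‖deriv riemannZeta z / riemannZeta z‖ ≤ ε1 * Lg c) → ∀ z ∈ ball c r',
      sq w riemannZeta k z ≠ 0 ∧ ‖deriv (sq w riemannZeta k) z / sq w riemannZeta k z‖ ≤ ε * Lg c ∧
        ‖riemannZeta z‖ * (a * Lg c) ^ k / 2 ≤ ‖sq w riemannZeta k z‖ := by
  obtain ⟨ε', L0, hε', hL0, H⟩ := asym2 k h0 h1 hM.ha hε hε1
  obtain ⟨M, hM'⟩ := hM.near hε'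
  refine ⟨ε', max L0 M, hε', fun c hc hU hz => ?_⟩
  exact H riemannZeta w c (Lg c) ((le_max_left _ _).trans hc) (hM.zd hU) (hM.diff.mono hU)
    (fun z hz' => (hz z hz').1) (fun z hz' => (hz z hz').2)
    (fun z hz' => hM' c ((le_max_right _ _).trans hc) z (hU hz') (by
      rw [mem_ball, dist_eq_norm] at hz'
      linarith))

lemma mem_ball_re_im {c z : ℂ} {r : ℝ} (h : z ∈ ball c r) :
    c.re - r < z.re ∧ z.re < c.re + r ∧ c.im - r < z.im ∧ z.im < c.im + r ∧ ‖z - c‖ < r := by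
  rw [mem_ball, dist_eq_norm] at h
  have g1 : |(z - c).re| ≤ ‖z - c‖ := abs_re_le_norm _
  have g2 : |(z - c).im| ≤ ‖z - c‖ := abs_im_le_norm _
  rw [sub_re, abs_le] at g1
  rw [sub_im, abs_le] at g2
  exact ⟨by linarith, by linarith, by linarith, by linarith, h⟩

lemma mem_closedBall_re_im {c z : ℂ} {r : ℝ} (h : z ∈ closedBall c r) :
    c.re - r ≤ z.re ∧ z.re ≤ c.re + r ∧ c.im - r ≤ z.im ∧ z.im ≤ c.im + r ∧ ‖z - c‖ ≤ r := by
  rw [mem_closedBall, dist_eq_norm] at h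
  have g1 : |(z - c).re| ≤ ‖z - c‖ := abs_re_le_norm _
  have g2 : |(z - c).im| ≤ ‖z - c‖ := abs_im_le_norm _
  rw [sub_re, abs_le] at g1
  rw [sub_im, abs_le] at g2
  exact ⟨by linarith, by linarith, by linarith, by linarith, h⟩

/-- to the right of the zeros -/
theorem right2 (hM : Mul a u U w) {b : ℝ} (hu : u < b) (hb0 : 0 ≤ b) (hb1 : b ≤ 1) (hf : Free b)
    (k : ℕ) {ε : ℝ} (hε : 0 < ε) (hε1 : ε ≤ 1 / 2) : ∃ T0 : ℝ, ∀ s : ℂ, b + ε ≤ s.re → T0 ≤ s.im →
      sq w riemannZeta k s ≠ 0 ∧ ‖deriv (sq w riemannZeta k) s / sq w riemannZeta k s‖ ≤ ε * Lg s ∧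
        ‖riemannZeta s‖ * (a * Lg s) ^ k / 2 ≤ ‖sq w riemannZeta k s‖ := by
  obtain ⟨ε1, M, hε10, H⟩ := ball_asym hM k (r' := ε / 4) (r := ε / 2) (by linarith) (by linarith)
    (by linarith) hε hε1
  obtain ⟨T1, hT1⟩ := small hb0 hb1 hf (ε := min (ε / 2) (ε1 / 2)) (lt_min (by linarith) (by linarith))
  refine ⟨max (T1 + 1) (max 4 (Real.exp M)), fun s h1 h2 => ?_⟩
  have k1 : T1 + 1 ≤ s.im := (le_max_left _ _).trans h2
  have k2 : 4 ≤ s.im := ((le_max_left _ _).trans (le_max_right _ _)).trans h2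
  have k3 := Lg_ge (((le_max_right _ _).trans (le_max_right _ _)).trans h2)
  have k4 : 1 ≤ Lg s := by
    apply Lg_ge
    linarith [Real.exp_one_lt_d9]
  refine H s k3 ?_ ?_ s (mem_ball_self (by linarith))
  · intro z hz
    obtain ⟨g1, g2, g3, g4, g5⟩ := mem_ball_re_im hz
    exact hM.sub z (by linarith) (by linarith)
  · intro z hz
    obtain ⟨g1, g2, g3, g4, g5⟩ := mem_ball_re_im hz
    have h3 := hT1 z (by
      have := min_le_left (ε / 2) (ε1 / 2)
      linarith) (by linarith)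
    refine ⟨h3.1, h3.2.trans ?_⟩
    have h4 := (abs_le.1 (Lg_near (z := z) (c := s) (by linarith))).2
    have h5 := min_le_right (ε / 2) (ε1 / 2)
    calc min (ε / 2) (ε1 / 2) * Lg z ≤ ε1 / 2 * (2 * Lg s) := by
          apply mul_le_mul h5 (by linarith) (Lg_pos z).le (by linarith)
      _ = _ := by ring

/-- far to the right -/
theorem right3 (hM : Mul a u U w) (k : ℕ) : ∃ R0 : ℝ, ∀ s : ℂ, 5 / 4 ≤ s.re →
    ball s (1 / 16) ⊆ U → R0 ≤ ‖s‖ → sq w riemannZeta k s ≠ 0 := by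
  obtain ⟨ε1, M, hε10, H⟩ := ball_asym hM k (r' := 1 / 32) (r := 1 / 16) (by norm_num) (by norm_num)
    (by norm_num) (ε := 1 / 2) (by norm_num) le_rfl
  obtain ⟨C, hC1, hC⟩ := right_log
  refine ⟨Real.exp (max M (C / ε1)), fun s h1 h2 h3 => ?_⟩
  have h4 := Lg_ge_of_norm (Real.exp_pos _) h3
  rw [Real.log_exp] at h4
  refine (H s ((le_max_left _ _).trans h4) h2 ?_ s (mem_ball_self (by norm_num))).1
  intro z hz
  obtain ⟨g1, g2, g3, g4, g5⟩ := mem_ball_re_im hz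
  obtain ⟨h5, h6⟩ := hC z (by linarith)
  refine ⟨h5, h6.trans ?_⟩
  have := (le_max_right _ _).trans h4
  rw [div_le_iff₀ hε10] at this
  linarith

/-- the logarithmic derivative of zeta near a point close to the line `Re s = b` without zeros
nearby -/
theorem no_zero_ball {b : ℝ} (hb0 : 1 / 2 ≤ b) (hb1 : b ≤ 1) (hf : Free b) {r ε : ℝ} (hr : 0 < r)
    (hr1 : r ≤ 1 / 4) (hε : 0 < ε) : ∃ T0 : ℝ, ∀ p : ℂ, b - r / 16 ≤ p.re → p.re ≤ b + r / 16 →
      T0 ≤ p.im → (∀ q ∈ ball p r, riemannZeta q ≠ 0) →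
      ∀ z ∈ ball p (r / 4), ‖deriv riemannZeta z / riemannZeta z‖ ≤ ε * Lg p := by
  obtain ⟨A0, hA0, hg⟩ := growth
  obtain ⟨ε', hε', H⟩ := ext0 (r := r / 16) (ρ := r / 2) (R := 3 * r / 4) (by linarith) (by linarith)
    (by linarith) (A := 2 * A0 + 1) (by linarith) (ε := ε / 2) (by linarith)
  obtain ⟨T1, hT1⟩ := small (by linarith) hb1 hf (ε := min (r / 16) (ε' / 2))
    (lt_min (by linarith) (by linarith))
  obtain ⟨T2, hT2⟩ := low (by linarith) hb1 hf (ε := min (r / 16) 1) (lt_min (by linarith) one_pos)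
  refine ⟨max (max (T1 + 1) (T2 + 1)) 5, fun p h1 h2 h3 h4 z hz => ?_⟩
  have k1 : T1 + 1 ≤ p.im := ((le_max_left _ _).trans (le_max_left _ _)).trans h3
  have k2 : T2 + 1 ≤ p.im := ((le_max_right _ _).trans (le_max_left _ _)).trans h3
  have k3 : 5 ≤ p.im := (le_max_right _ _).trans h3
  have k4 : 1 ≤ Lg p := by
    apply Lg_ge
    linarith [Real.exp_one_lt_d9]
  set c : ℂ := p + (r / 4 : ℝ) with hc
  have hcre : c.re = p.re + r / 4 := by rw [hc, add_re, ofReal_re]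
  have hcim : c.im = p.im := by rw [hc, add_im, ofReal_im, add_zero]
  have hpc : ‖p - c‖ = r / 4 := by
    rw [hc, sub_add_cancel_left, norm_neg, Complex.norm_real, Real.norm_of_nonneg (by linarith)]
  have k5 : 1 ≤ Lg c := by
    apply Lg_ge
    rw [hcim]
    linarith [Real.exp_one_lt_d9]
  have hsub : ball c (3 * r / 4) ⊆ ball p r := by
    apply ball_subset_ball'
    rw [dist_eq_norm, norm_sub_rev, hpc]
    linarith
  have hin : z ∈ closedBall c (r / 2) := by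
    rw [mem_closedBall, dist_eq_norm]
    have : ‖z - c‖ ≤ ‖z - p‖ + ‖p - c‖ := by
      have e : z - c = (z - p) + (p - c) := by ring
      rw [e]
      exact norm_add_le _ _
    have := (mem_ball_re_im hz).2.2.2.2
    linarith
  have key := H riemannZeta c (Lg c) (Lg_pos c)
    (zeta_diff (fun h => by
      have := (mem_ball_re_im h).2.2.1
      rw [one_im, hcim] at this
      linarith))
    (fun q hq => h4 q (hsub hq))
    (by
      intro q hq
      obtain ⟨g1, g2, g3, g4, g5⟩ := mem_ball_re_im hq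
      rw [hcre] at g1 g2
      rw [hcim] at g3 g4
      have g6 := hg q (by linarith) (by linarith) (by linarith)
      have g7 := (abs_le.1 (Lg_near (z := q) (c := c) (by linarith))).2
      have g8 := (hT2 c (by
        rw [hcre]
        have := min_le_left (r / 16) 1
        linarith) (by rw [hcre]; linarith) (by rw [hcim]; linarith)).1
      have g9 : Real.exp (-Lg c) ≤ ‖riemannZeta c‖ := by
        refine le_trans ?_ g8
        apply Real.exp_le_exp.2
        have := min_le_right (r / 16) 1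
        have := Lg_pos c
        nlinarith
      calc ‖riemannZeta q‖ ≤ Real.exp (A0 * Lg q) := g6
        _ ≤ Real.exp (A0 * (2 * Lg c)) := by
            apply Real.exp_le_exp.2
            apply mul_le_mul_of_nonneg_left _ (by linarith)
            linarith
        _ = Real.exp ((2 * A0 + 1) * Lg c) * Real.exp (-Lg c) := by
            rw [← Real.exp_add]
            ring_nf
        _ ≤ _ := by gcongr)
    (by
      intro q hq
      obtain ⟨g1, g2, g3, g4, g5⟩ := mem_closedBall_re_im hq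
      rw [hcre] at g1 g2
      rw [hcim] at g3 g4
      have g6 := (hT1 q (by
        have := min_le_left (r / 16) (ε' / 2)
        linarith) (by linarith)).2
      refine g6.trans ?_
      have g7 := (abs_le.1 (Lg_near (z := q) (c := c) (by linarith))).2
      calc min (r / 16) (ε' / 2) * Lg q ≤ ε' / 2 * (2 * Lg c) := by
            apply mul_le_mul (min_le_right _ _) (by linarith) (Lg_pos q).le (by linarith)
        _ = _ := by ring)
    z hin
  refine key.trans ?_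
  have g7 := (abs_le.1 (Lg_near (z := c) (c := p) (by rw [norm_sub_rev, hpc]; linarith))).2
  nlinarith

/-- near a zero of a term of the sequence there is a zero of zeta -/
theorem conv (hM : Mul a u U w) {b : ℝ} (hu : u < b) (hb0 : 1 / 2 ≤ b) (hb1 : b ≤ 1) (hf : Free b)
    (k : ℕ) {r : ℝ} (hr : 0 < r) : ∃ δ T0 : ℝ, 0 < δ ∧ ∀ p : ℂ, b - δ ≤ p.re → T0 ≤ p.im →
      sq w riemannZeta k p = 0 → ∃ q ∈ ball p r, riemannZeta q = 0 := by
  -- we may assume that `r` is small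
  wlog hr1 : r ≤ min (1 / 4) ((b - u) / 2) generalizing r
  · rw [not_le] at hr1
    obtain ⟨δ, T0, hδ, H⟩ := this (r := min (1 / 4) ((b - u) / 2)) (lt_min (by norm_num) (by linarith)) le_rfl
    refine ⟨δ, T0, hδ, fun p h1 h2 h3 => ?_⟩
    obtain ⟨q, hq, hq0⟩ := H p h1 h2 h3
    exact ⟨q, ball_subset_ball hr1.le hq, hq0⟩
  have hr4 : r ≤ 1 / 4 := hr1.trans (min_le_left _ _)
  have hru : r ≤ (b - u) / 2 := hr1.trans (min_le_right _ _)
  obtain ⟨ε1, M, hε10, H⟩ := ball_asym hM k (r' := r / 8) (r := r / 4) (by linarith) (by linarith)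
    (by linarith) (ε := 1 / 2) (by norm_num) le_rfl
  obtain ⟨T1, hT1⟩ := no_zero_ball hb0 hb1 hf hr hr4 hε10
  obtain ⟨T2, hT2⟩ := right2 hM hu (by linarith) hb1 hf k (ε := r / 16) (by linarith) (by linarith)
  refine ⟨r / 16, max (max T1 T2) (max 3 (Real.exp M)), by linarith, fun p h1 h2 h3 => ?_⟩
  have k1 : T1 ≤ p.im := ((le_max_left _ _).trans (le_max_left _ _)).trans h2
  have k2 : T2 ≤ p.im := ((le_max_right _ _).trans (le_max_left _ _)).trans h2
  have k3 : 3 ≤ p.im := ((le_max_left _ _).trans (le_max_right _ _)).trans h2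
  have k4 := Lg_ge (((le_max_right _ _).trans (le_max_right _ _)).trans h2)
  by_contra hcon
  have hne : ∀ q ∈ ball p r, riemannZeta q ≠ 0 := fun q hq h => hcon ⟨q, hq, h⟩
  by_cases hp : b + r / 16 ≤ p.re
  · exact (hT2 p hp k2).1 h3
  rw [not_le] at hp
  have hlog := hT1 p h1 hp.le k1 hne
  refine (H p k4 ?_ ?_ p (mem_ball_self (by linarith))).1 h3
  · intro z hz
    obtain ⟨g1, g2, g3, g4, g5⟩ := mem_ball_re_im hz
    exact hM.sub z (by linarith) (by linarith)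
  · intro z hz
    exact ⟨hne z (ball_subset_ball (by linarith) hz), hlog z hz⟩

end Pool.Agent.L5helper6.DZ
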