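import Pool.Agent.L5helper6.DZ.Core

/-!
# A zero of `F` without zeros of `F' + w F` nearby forces a large value of `F`
-/

set_option autoImplicit false

open Complex Filter Topology Set Metric
open Pool.Agent.H296R2.LE (ratio_upper ratio_lower exists_log ext_ball three_circles)

namespace Pool.Agent.L5helper6.DZ

lemma hasDerivAt_seg {f : ℂ → ℂ} {f' p : ℂ} {x : ℝ} (h : HasDerivAt f f' (p - x)) :
    HasDerivAt (fun x : ℝ => f (p - x)) (-f') x := by
  have h1 : HasDerivAt (fun x : ℝ => p - (x : ℂ)) (-1) x := by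
    have := (hasDerivAt_id x).ofReal_comp.const_sub p
    simpa using this
  have h2 := h.comp x h1
  refine h2.congr_deriv ?_
  ring

theorem rev_ball {a ε d L r : ℝ} (ha : 0 < a) (hε : 0 < ε) (hεa : 2 * ε ≤ a / 4) (hd : 0 < d)
    (hdr : d < r) (hL0 : 0 < L) (hL : Real.log 6 ≤ (a - 2 * ε) * L * d) {F G w : ℂ → ℂ} {p : ℂ}
    (hF : DifferentiableOn ℂ F (ball p r)) (hG : DifferentiableOn ℂ G (ball p r))
    (hw : DifferentiableOn ℂ w (ball p r)) (hFG : ∀ z ∈ ball p r, G z = deriv F z + w z * F z)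
    (hG0 : ∀ z ∈ ball p r, G z ≠ 0) (hF0 : F p = 0)
    (h1 : ∀ z ∈ ball p r, ‖deriv G z / G z‖ ≤ ε * L)
    (h2 : ∀ z ∈ ball p r, ‖w z - a * L‖ ≤ ε * L) :
    ‖G p‖ / (2 * (a * L)) * Real.exp ((a - ε) * L * d) ≤ ‖F (p - d)‖ := by
  have hr : 0 < r := hd.trans hdr
  obtain ⟨W, hW⟩ := hw.isExactOn_ball
  set A : ℂ → ℂ := fun z => cexp (W z - W p) with hA
  have hAd : ∀ z ∈ ball p r, HasDerivAt A (w z * A z) z := by
    intro z hz
    have := ((hW z hz).sub_const (W p)).cexp
    refine this.congr_deriv ?_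
    simp only [hA]
    ring
  have hmem : ∀ x ∈ Icc (0 : ℝ) d, p - x ∈ ball p r := by
    intro x hx
    rw [mem_ball, dist_eq_norm]
    have : p - x - p = -(x : ℂ) := by ring
    rw [this, norm_neg, Complex.norm_real, Real.norm_of_nonneg hx.1]
    exact hx.2.trans_lt hdr
  have hFd : ∀ z ∈ ball p r, HasDerivAt F (deriv F z) z := fun z hz =>
    ((hF z hz).differentiableAt (isOpen_ball.mem_nhds hz)).hasDerivAt
  have hGd : ∀ z ∈ ball p r, HasDerivAt G (deriv G z) z := fun z hz =>
    ((hG z hz).differentiableAt (isOpen_ball.mem_nhds hz)).hasDerivAt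
  have hAp : A p = 1 := by simp [hA]
  have key := ode (φ := fun x : ℝ => A (p - x) * F (p - x)) (g := fun x : ℝ => A (p - x) * G (p - x))
    (h := fun x : ℝ => w (p - x) + deriv G (p - x) / G (p - x)) (d := d) (l := a * L)
    (K := 2 * ε * L) hd.le (mul_pos ha hL0) (by positivity) (by nlinarith)
    (by
      have : (a * L - 2 * ε * L) * d = (a - 2 * ε) * L * d := by ring
      rw [this]
      exact hL)
    (by
      intro x hx
      have hz := hmem x hx
      have h3 := hasDerivAt_seg ((hAd _ hz).mul (hFd _ hz))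
      refine h3.congr_deriv ?_
      rw [hFG _ hz]
      ring)
    (by
      intro x hx
      have hz := hmem x hx
      have h3 := hasDerivAt_seg ((hAd _ hz).mul (hGd _ hz))
      refine h3.congr_deriv ?_
      have := hG0 _ hz
      field_simp)
    (by
      intro x hx
      have hz := hmem x hx
      have e : w (p - x) + deriv G (p - x) / G (p - x) - ((a * L : ℝ) : ℂ) =
          (w (p - x) - a * L) + deriv G (p - x) / G (p - x) := by
        push_cast
        ring
      rw [e]
      refine (norm_add_le _ _).trans ((add_le_add (h2 _ hz) (h1 _ hz)).trans (le_of_eq ?_))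
      ring)
    (by simp [hF0])
  simp only [Complex.ofReal_zero, sub_zero, hAp, one_mul, norm_mul] at key
  -- the size of `A`
  have hAn : ‖A (p - d)‖ ≤ Real.exp (-((a - ε) * L * d)) := by
    have h3 := ratio_upper (f := fun x : ℝ => A (p - x)) (f' := fun x : ℝ => -(w (p - x) * A (p - x)))
      (a := 0) (b := d) (K := ε * L) (l := a * L) hd.le
      (fun x hx => hasDerivAt_seg (hAd _ (hmem x hx)))
      (fun x hx => by
        have e : -(w (p - x) * A (p - x)) + ((a * L : ℝ) : ℂ) * A (p - x) =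
            -((w (p - x) - a * L) * A (p - x)) := by
          push_cast
          ring
        rw [e, norm_neg, norm_mul]
        exact mul_le_mul_of_nonneg_right (h2 _ (hmem x hx)) (norm_nonneg _))
    simp only [Complex.ofReal_zero, sub_zero, hAp, norm_one, one_mul] at h3
    refine h3.trans (le_of_eq ?_)
    congr 1
    ring
  have hE := Real.exp_pos ((a - ε) * L * d)
  calc ‖G p‖ / (2 * (a * L)) * Real.exp ((a - ε) * L * d)
      ≤ (‖A (p - d)‖ * ‖F (p - d)‖) * Real.exp ((a - ε) * L * d) := by gcongr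
    _ ≤ (Real.exp (-((a - ε) * L * d)) * ‖F (p - d)‖) * Real.exp ((a - ε) * L * d) := by gcongr
    _ = (Real.exp (-((a - ε) * L * d)) * Real.exp ((a - ε) * L * d)) * ‖F (p - d)‖ := by ring
    _ = ‖F (p - d)‖ := by rw [← Real.exp_add, neg_add_cancel, Real.exp_zero, one_mul]

end Pool.Agent.L5helper6.DZ
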