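import Pool.Agent.L5helper6.DZ.Inst

/-!
# Symmetries and finiteness of the sets of zeros
-/

set_option autoImplicit false

open Complex Filter Topology Set Metric

namespace Pool.Agent.L5helper6.DZ

lemma finite_zeros {f : ℂ → ℂ} {V K : Set ℂ} (hV : IsOpen V) (hVc : IsPreconnected V)
    (hf : DifferentiableOn ℂ f V) (hK : IsCompact K) (hKV : K ⊆ V) (hne : ∃ z ∈ V, f z ≠ 0) :
    {s : ℂ | s ∈ K ∧ f s = 0}.Finite := by
  by_contra hinf
  have hinf' : {s : ℂ | s ∈ K ∧ f s = 0}.Infinite := hinf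
  obtain ⟨z0, hz0, hacc⟩ := hinf'.exists_accPt_of_subset_isCompact hK (fun s hs => hs.1)
  have han : AnalyticOnNhd ℂ f V := fun z hz => hf.analyticAt (hV.mem_nhds hz)
  have hfr : ∃ᶠ z in 𝓝[≠] z0, f z = 0 := by
    rw [accPt_iff_frequently_nhdsNE] at hacc
    exact hacc.mono fun z hz => hz.2
  obtain ⟨z, hz, hz'⟩ := hne
  exact hz' (han.eqOn_zero_of_preconnected_of_frequently_eq_zero hVc (hKV hz0) hfr hz)

lemma iter_diffOn {f : ℂ → ℂ} {V : Set ℂ} (hV : IsOpen V) (hf : DifferentiableOn ℂ f V) (k : ℕ) :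
    DifferentiableOn ℂ (iteratedDeriv k f) V := by
  induction k with
  | zero => simpa using hf
  | succ k ih =>
    rw [iteratedDeriv_succ]
    exact ih.deriv hV

lemma xi_diff : Differentiable ℂ xi := by
  unfold xi
  have := differentiable_completedZeta₀
  fun_prop

lemma Gammaℝ_conj (s : ℂ) : Gammaℝ ((starRingEnd ℂ) s) = (starRingEnd ℂ) (Gammaℝ s) := by
  rw [Gammaℝ_def, Gammaℝ_def, map_mul]
  congr 1
  · have e : -(starRingEnd ℂ) s / 2 = (starRingEnd ℂ) (-s / 2) := by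
      rw [map_div₀, map_neg, map_ofNat]
    rw [e, Complex.cpow_conj]
    · rw [Complex.conj_ofReal]
    · rw [Complex.arg_ofReal_of_nonneg Real.pi_pos.le]
      exact Real.pi_ne_zero.symm
  · have e : (starRingEnd ℂ) s / 2 = (starRingEnd ℂ) (s / 2) := by
      rw [map_div₀, map_ofNat]
    rw [e, Complex.Gamma_conj]

lemma xi_conj (s : ℂ) : xi ((starRingEnd ℂ) s) = (starRingEnd ℂ) (xi s) := by
  -- identity theorem
  have h1 : Differentiable ℂ ((starRingEnd ℂ) ∘ xi ∘ (starRingEnd ℂ)) := fun z =>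
    differentiableAt_conj_conj_iff.2 (xi_diff _)
  have han1 : AnalyticOnNhd ℂ ((starRingEnd ℂ) ∘ xi ∘ (starRingEnd ℂ)) univ := fun z _ => h1.analyticAt z
  have han2 : AnalyticOnNhd ℂ xi univ := fun z _ => xi_diff.analyticAt z
  have hev : ((starRingEnd ℂ) ∘ xi ∘ (starRingEnd ℂ)) =ᶠ[𝓝 (2 : ℂ)] xi := by
    have hopen : IsOpen {z : ℂ | 9 / 8 < z.re} := isOpen_lt continuous_const Complex.continuous_re
    have h2 : (2 : ℂ) ∈ {z : ℂ | 9 / 8 < z.re} := by
      show (9 / 8 : ℝ) < (2 : ℂ).re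
      norm_num
    filter_upwards [hopen.mem_nhds h2] with z hz
    have hz' : 9 / 8 < z.re := hz
    have key : ∀ z : ℂ, 9 / 8 < z.re → xi z = z * (z - 1) / 2 * (Gammaℝ z * riemannZeta z) := by
      intro z hz
      have h0 : z ≠ 0 := by
        intro h
        rw [h, zero_re] at hz
        norm_num at hz
      have h1 : z ≠ 1 := by
        intro h
        rw [h, one_re] at hz
        norm_num at hz
      rcases xi_eq h0 h1 with h | h
      · exact h
      · exact absurd h (Gammaℝ_ne_zero_of_re_pos (by linarith))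
    simp only [Function.comp_apply]
    rw [key z hz', key _ (by rw [conj_re]; exact hz'), Gammaℝ_conj, riemannZeta_conj,
      map_mul, map_mul, map_div₀, map_mul, map_sub, map_ofNat, map_one]
    simp only [Complex.conj_conj]
  have h3 := han1.eqOn_of_preconnected_of_eventuallyEq han2 isPreconnected_univ (mem_univ _) hev
  have h4 := h3 (mem_univ s)
  simp only [Function.comp_apply] at h4
  rw [← h4, Complex.conj_conj]

lemma refl1 (s : ℂ) : ∃ φ : ℂ → ℂ, (φ s).im = |s.im| ∧ (∀ z, (φ z).re = 1 - z.re) ∧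
    (∀ z, |(φ z).im| = |z.im|) ∧ (∀ z, φ (φ z) = z) ∧ (∀ z z', ‖φ z - φ z'‖ = ‖z - z'‖) ∧
    ∀ k z, iteratedDeriv k riemannZeta (φ z) = 0 ↔ iteratedDeriv k riemannZeta (1 - z) = 0 := by
  rcases le_total s.im 0 with h | h
  · refine ⟨fun z => 1 - z, ?_, ?_, ?_, ?_, ?_, ?_⟩
    · rw [abs_of_nonpos h]
      simp
    · intro z; simp
    · intro z; simp
    · intro z; ring
    · intro z z'
      have : 1 - z - (1 - z') = -(z - z') := by ring
      rw [this, norm_neg]
    · intro k z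
      exact Iff.rfl
  · refine ⟨fun z => 1 - (starRingEnd ℂ) z, ?_, ?_, ?_, ?_, ?_, ?_⟩
    · rw [abs_of_nonneg h]
      simp
    · intro z; simp
    · intro z; simp
    · intro z
      simp
    · intro z z'
      have : 1 - (starRingEnd ℂ) z - (1 - (starRingEnd ℂ) z') = -(starRingEnd ℂ) (z - z') := by
        rw [map_sub]
        ring
      rw [this, norm_neg, norm_conj]
    · intro k z
      have e : 1 - (starRingEnd ℂ) z = (starRingEnd ℂ) (1 - z) := by simp
      show iteratedDeriv k riemannZeta (1 - (starRingEnd ℂ) z) = 0 ↔ _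
      rw [e, iteratedDeriv_conj riemannZeta_conj k, map_eq_zero]

lemma refl2 (s : ℂ) : ∃ φ : ℂ → ℂ, (φ s).im = |s.im| ∧ (∀ z, (φ z).re = z.re) ∧
    (∀ z, |(φ z).im| = |z.im|) ∧ (∀ z, φ (φ z) = z) ∧ (∀ z z', ‖φ z - φ z'‖ = ‖z - z'‖) ∧
    (∀ k z, iteratedDeriv k xi (φ z) = 0 ↔ iteratedDeriv k xi z = 0) ∧
    ∀ z, riemannZeta (φ z) = 0 ↔ riemannZeta z = 0 := by
  rcases le_total 0 s.im with h | h
  · exact ⟨fun z => z, (abs_of_nonneg h).symm, fun _ => rfl, fun _ => rfl, fun _ => rfl,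
      fun _ _ => rfl, fun _ _ => Iff.rfl, fun _ => Iff.rfl⟩
  · refine ⟨fun z => (starRingEnd ℂ) z, ?_, ?_, ?_, ?_, ?_, ?_, ?_⟩
    · rw [abs_of_nonpos h]
      simp
    · intro z; simp
    · intro z; simp
    · intro z; simp
    · intro z z'
      rw [← map_sub, norm_conj]
    · intro k z
      rw [iteratedDeriv_conj xi_conj k, map_eq_zero]
    · intro z
      rw [riemannZeta_conj, map_eq_zero]

end Pool.Agent.L5helper6.DZ
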