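import Pool.Agent.L5helper6.DZ.Rev
import Pool.Agent.TH809.MZ.Fin

/-!
# The size of zeta to the right of its zeros
-/

set_option autoImplicit false

open Complex Filter Topology Set Metric
open Pool.Agent.H296R2.LE (ratio_upper ratio_lower exists_log ext_ball three_circles)
open Pool.Agent.TH809.MZ (zeta_bounds)

namespace Pool.Agent.L5helper6.DZ

/-- the logarithm of the size of a point -/
noncomputable def Lg (s : ℂ) : ℝ := Real.log (‖s‖ + 2)

lemma Lg_pos (s : ℂ) : 0 < Lg s := Real.log_pos (by linarith [norm_nonneg s])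

lemma Lg_near {z c : ℂ} (h : ‖z - c‖ ≤ 2) : |Lg z - Lg c| ≤ 1 := by
  have key : ∀ z c : ℂ, ‖z - c‖ ≤ 2 → Lg z - Lg c ≤ 1 := by
    intro z c h
    have h1 : ‖z‖ ≤ ‖z - c‖ + ‖c‖ := by
      calc ‖z‖ = ‖(z - c) + c‖ := by ring_nf
        _ ≤ _ := norm_add_le _ _
    unfold Lg
    rw [← Real.log_div (by positivity) (by positivity), Real.log_le_iff_le_exp (by positivity)]
    have h2 : (‖z‖ + 2) / (‖c‖ + 2) ≤ 2 := by
      rw [div_le_iff₀ (by positivity)]
      linarith [norm_nonneg c]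
    have := Real.add_one_le_exp (1 : ℝ)
    linarith
  rw [abs_le]
  constructor
  · have := key c z (by rwa [norm_sub_rev])
    linarith
  · exact key z c h

lemma Lg_ge_of_im {s : ℂ} {T : ℝ} (hT : 0 < T) (h : T ≤ s.im) : Real.log T ≤ Lg s := by
  unfold Lg
  apply Real.log_le_log hT
  have := (le_abs_self s.im).trans (abs_im_le_norm s)
  linarith

lemma Lg_ge_of_norm {s : ℂ} {T : ℝ} (hT : 0 < T) (h : T ≤ ‖s‖) : Real.log T ≤ Lg s := by
  unfold Lg
  apply Real.log_le_log hT
  linarith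

lemma Lg_ge {s : ℂ} {M : ℝ} (h : Real.exp M ≤ s.im) : M ≤ Lg s := by
  have := Lg_ge_of_im (Real.exp_pos M) h
  rwa [Real.log_exp] at this

/-- no zeros to the right of `b + ε` at large heights, for every `ε > 0` -/
def Free (b : ℝ) : Prop :=
  ∀ ε : ℝ, 0 < ε → ∃ T0 : ℝ, ∀ s : ℂ, b + ε ≤ s.re → T0 ≤ s.im → riemannZeta s ≠ 0

lemma zeta_diff {V : Set ℂ} (h : (1 : ℂ) ∉ V) : DifferentiableOn ℂ riemannZeta V := by
  intro z hz
  have : z ≠ 1 := fun e => h (e ▸ hz)
  exact (differentiableAt_riemannZeta this).differentiableWithinAt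

/-- the logarithmic derivative in `Re s ≥ 9/8` -/
lemma right_log : ∃ C : ℝ, 1 ≤ C ∧ ∀ s : ℂ, 9 / 8 ≤ s.re → riemannZeta s ≠ 0 ∧
    ‖deriv riemannZeta s / riemannZeta s‖ ≤ C := by
  obtain ⟨A, hA1, hA⟩ := zeta_bounds (a := 17 / 16) (by norm_num)
  refine ⟨16 * A * A, by nlinarith, fun s hs => ?_⟩
  have hre : ∀ z ∈ closedBall s (1 / 16), 17 / 16 ≤ z.re := by
    intro z hz
    rw [mem_closedBall, dist_eq_norm] at hz
    have h1 : |(z - s).re| ≤ 1 / 16 := (abs_re_le_norm _).trans hz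
    rw [sub_re, abs_le] at h1
    linarith
  have hder : ‖deriv riemannZeta s‖ ≤ A / (1 / 16) := by
    apply Complex.norm_deriv_le_of_forall_mem_sphere_norm_le (by norm_num)
    · apply DifferentiableOn.diffContOnCl
      rw [closure_ball s (by norm_num)]
      apply zeta_diff
      intro h
      have := hre 1 h
      rw [one_re] at this
      norm_num at this
    · intro z hz
      exact (hA z (hre z (sphere_subset_closedBall hz))).1
  have h2 := (hA s (by linarith)).2
  have hA0 : 0 < A := by linarith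
  have h3 : 0 < ‖riemannZeta s‖ := lt_of_lt_of_le (by positivity) h2
  refine ⟨norm_pos_iff.1 h3, ?_⟩
  rw [norm_div, div_le_iff₀ h3]
  rw [div_le_iff₀ hA0] at h2
  calc ‖deriv riemannZeta s‖ ≤ A / (1 / 16) := hder
    _ = 16 * A * 1 := by ring
    _ ≤ 16 * A * (‖riemannZeta s‖ * A) := by gcongr
    _ = _ := by ring

/-- polynomial growth -/
lemma growth : ∃ A : ℝ, 1 ≤ A ∧ ∀ s : ℂ, -1 ≤ s.re → s.re ≤ 3 → 1 ≤ s.im →
    ‖riemannZeta s‖ ≤ Real.exp (A * Lg s) := by
  obtain ⟨C, B, hC, hB, h⟩ := Pool.Agent.H448R2.GC.X2.growth_far 1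
  have hl2 : 0 < Real.log 2 := Real.log_pos (by norm_num)
  have hq : 0 ≤ |Real.log C| / Real.log 2 := by positivity
  refine ⟨B + |Real.log C| / Real.log 2 + 1, by linarith, fun s h1 h2 h3 => ?_⟩
  have h4 := h s h1 h2 (h3.trans (le_abs_self _))
  have h5 : 1 + |s.im| ≤ ‖s‖ + 2 := by linarith [abs_im_le_norm s]
  have h6 : (1 + |s.im|) ^ B ≤ Real.exp (B * Lg s) := by
    calc (1 + |s.im|) ^ B ≤ (‖s‖ + 2) ^ B := Real.rpow_le_rpow (by positivity) h5 hB.le
      _ = Real.exp (B * Lg s) := by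
        rw [Real.rpow_def_of_pos (by positivity), mul_comm]
        rfl
  have h7 : Real.log 2 ≤ Lg s := Real.log_le_log (by norm_num) (by linarith [norm_nonneg s])
  have h8 : C ≤ Real.exp (|Real.log C| / Real.log 2 * Lg s) := by
    calc C = Real.exp (Real.log C) := (Real.exp_log hC).symm
      _ ≤ _ := by
        apply Real.exp_le_exp.2
        calc Real.log C ≤ |Real.log C| := le_abs_self _
          _ = |Real.log C| / Real.log 2 * Real.log 2 := by field_simp
          _ ≤ _ := by gcongr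
  calc ‖riemannZeta s‖ ≤ C * (1 + |s.im|) ^ B := h4
    _ ≤ Real.exp (|Real.log C| / Real.log 2 * Lg s) * Real.exp (B * Lg s) := by gcongr
    _ = Real.exp ((B + |Real.log C| / Real.log 2) * Lg s) := by
        rw [← Real.exp_add]
        ring_nf
    _ ≤ _ := by
        apply Real.exp_le_exp.2
        apply mul_le_mul_of_nonneg_right _ (Lg_pos s).le
        linarith

/-- small logarithmic derivative to the right of the zeros -/
theorem small {b : ℝ} (hb0 : 0 ≤ b) (hb1 : b ≤ 1) (hf : Free b) {ε : ℝ} (hε : 0 < ε) :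
    ∃ T0 : ℝ, ∀ s : ℂ, b + ε ≤ s.re → T0 ≤ s.im → riemannZeta s ≠ 0 ∧
      ‖deriv riemannZeta s / riemannZeta s‖ ≤ ε * Lg s := by
  -- we may assume that `ε` is small
  wlog hε1 : ε ≤ 1 / 16 generalizing ε
  · rw [not_le] at hε1
    obtain ⟨T0, hT0⟩ := this (ε := 1 / 16) (by norm_num) le_rfl
    refine ⟨T0, fun s h1 h2 => ?_⟩
    obtain ⟨h3, h4⟩ := hT0 s (by linarith) h2
    refine ⟨h3, h4.trans ?_⟩
    exact mul_le_mul_of_nonneg_right hε1.le (Lg_pos s).le
  obtain ⟨C1, hC1, hr⟩ := right_log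
  obtain ⟨A0, hA0, hg⟩ := growth
  obtain ⟨A1, hA1, hzb⟩ := zeta_bounds (a := 9 / 8) (by norm_num)
  have hρ : 1 / 16 < 5 / 4 - b - ε := by linarith
  obtain ⟨ε', hε', H⟩ := ext0 (r := 1 / 16) (ρ := 5 / 4 - b - ε) (R := 5 / 4 - b - ε / 2)
    (by norm_num) hρ (by linarith) (A := 2 * A0 + Real.log A1)
    (by have := Real.log_nonneg hA1; linarith) (ε := ε / 2) (by linarith)
  obtain ⟨T1, hT1⟩ := hf (ε / 2) (by linarith)
  refine ⟨max (T1 + 2) (max 4 (Real.exp (max (C1 / ε') (C1 / ε)))), fun s h1 h2 => ?_⟩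
  have hs1 : T1 + 2 ≤ s.im := (le_max_left _ _).trans h2
  have hs2 : 4 ≤ s.im := ((le_max_left _ _).trans (le_max_right _ _)).trans h2
  have hs3 : Real.exp (max (C1 / ε') (C1 / ε)) ≤ s.im :=
    ((le_max_right _ _).trans (le_max_right _ _)).trans h2
  have hLs := Lg_ge hs3
  refine ⟨hT1 s (by linarith) (by linarith), ?_⟩
  by_cases h98 : 9 / 8 ≤ s.re
  · refine (hr s h98).2.trans ?_
    have := (le_max_right _ _).trans hLs
    rw [div_le_iff₀ hε] at this
    linarith
  rw [not_le] at h98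
  set c : ℂ := ⟨5 / 4, s.im⟩ with hc
  have hsc : ‖s - c‖ = 5 / 4 - s.re := by
    have e : s - c = ((s.re - 5 / 4 : ℝ) : ℂ) := by
      apply Complex.ext <;> simp [hc]
    rw [e, Complex.norm_real, Real.norm_eq_abs, abs_of_nonpos (by linarith)]
    ring
  have hcs3 : Real.exp (max (C1 / ε') (C1 / ε)) ≤ c.im := hs3
  have hLc := Lg_ge hcs3
  have hLc1 : 1 ≤ Lg c := by
    apply Lg_ge
    show Real.exp 1 ≤ s.im
    linarith [Real.exp_one_lt_d9]
  have hball' : ∀ z ∈ ball c (5 / 4 - b - ε / 2), b + ε / 2 ≤ z.re ∧ z.re ≤ 3 ∧ s.im - 5 / 4 ≤ z.im := by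
    intro z hz
    rw [mem_ball, dist_eq_norm] at hz
    have g1 : |(z - c).re| ≤ ‖z - c‖ := abs_re_le_norm _
    have g2 : |(z - c).im| ≤ ‖z - c‖ := abs_im_le_norm _
    rw [sub_re, abs_le] at g1
    rw [sub_im, abs_le] at g2
    have e1 : c.re = 5 / 4 := rfl
    have e2 : c.im = s.im := rfl
    rw [e1] at g1
    rw [e2] at g2
    refine ⟨by linarith, by linarith, by linarith⟩
  have hT1' : ∀ z ∈ ball c (5 / 4 - b - ε / 2), riemannZeta z ≠ 0 := by
    intro z hz
    obtain ⟨g1, g2, g3⟩ := hball' z hz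
    exact hT1 z g1 (by linarith)
  have key := H riemannZeta c (Lg c) (Lg_pos c)
    (by
      apply zeta_diff
      intro h
      have := (hball' 1 h).2.2
      rw [one_im] at this
      linarith) hT1'
    (by
      intro z hz
      obtain ⟨g1, g2, g3⟩ := hball' z hz
      have g4 := hg z (by linarith) g2 (by linarith)
      rw [mem_ball, dist_eq_norm] at hz
      have g5 := (abs_le.1 (Lg_near (z := z) (c := c) (by linarith))).2
      have g7 : 1 / A1 ≤ ‖riemannZeta c‖ := (hzb c (by show (9 / 8 : ℝ) ≤ 5 / 4; norm_num)).2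
      have hA10 : 0 < A1 := by linarith
      calc ‖riemannZeta z‖ ≤ Real.exp (A0 * Lg z) := g4
        _ ≤ Real.exp (A0 * (2 * Lg c)) := by
            apply Real.exp_le_exp.2
            apply mul_le_mul_of_nonneg_left _ (by linarith)
            linarith
        _ = Real.exp (A0 * (2 * Lg c)) * (A1 * (1 / A1)) := by
            field_simp
        _ ≤ Real.exp (A0 * (2 * Lg c)) * (Real.exp (Real.log A1 * Lg c) * ‖riemannZeta c‖) := by
            gcongr
            calc A1 = Real.exp (Real.log A1 * 1) := by rw [mul_one, Real.exp_log hA10]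
              _ ≤ _ := by
                apply Real.exp_le_exp.2
                exact mul_le_mul_of_nonneg_left hLc1 (Real.log_nonneg hA1)
        _ = _ := by
            rw [← mul_assoc, ← Real.exp_add]
            ring_nf)
    (by
      intro z hz
      rw [mem_closedBall, dist_eq_norm] at hz
      have g1 : |(z - c).re| ≤ ‖z - c‖ := abs_re_le_norm _
      rw [sub_re, abs_le] at g1
      have e1 : c.re = 5 / 4 := rfl
      rw [e1] at g1
      refine (hr z (by linarith)).2.trans ?_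
      have := (le_max_left _ _).trans hLc
      rw [div_le_iff₀ hε'] at this
      linarith)
    s (by
      rw [mem_closedBall, dist_eq_norm, hsc]
      linarith)
  refine key.trans ?_
  have g5 := (abs_le.1 (Lg_near (z := s) (c := c) (by rw [hsc]; linarith))).1
  have g6 : 1 ≤ Lg s := by
    apply Lg_ge
    linarith [Real.exp_one_lt_d9]
  nlinarith

end Pool.Agent.L5helper6.DZ
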